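import Pool.Agent.H50.RS.Dim
import Pool.Agent.H50.Sep.Rel

/-!
Linear independence of the sequences `n ↦ μ^(M n + r)`, `M = 2 ^ i 3 ^ j`.
-/

set_option autoImplicit false

open MeasureTheory Filter Topology Set
open scoped ENNReal

namespace Pool.Agent.H50.RS

open Pool.Agent.H50.Sep

/-- a trigonometric polynomial with infinitely many zeros is zero -/
lemma trig_zero {R : Finset ℤ} {c : ℤ → ℂ} {Z : Set UnitAddCircle} (hZ : Z.Infinite)
    (h : ∀ x ∈ Z, ∑ r ∈ R, c r * (fourier r x : ℂ) = 0) : ∀ r ∈ R, c r = 0 := by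
  classical
  obtain ⟨N, hN⟩ : ∃ N : ℕ, ∀ r ∈ R, 0 ≤ r + N := by
    refine ⟨∑ r ∈ R, r.natAbs, fun r hr => ?_⟩
    have h1 : r.natAbs ≤ ∑ r ∈ R, r.natAbs := Finset.single_le_sum (f := fun r : ℤ => r.natAbs) (fun _ _ => Nat.zero_le _) hr
    omega
  set P : Polynomial ℂ := ∑ r ∈ R, Polynomial.C (c r) * Polynomial.X ^ (r + N).toNat with hP
  have hroot : ∀ x ∈ Z, P.eval (fourier 1 x : ℂ) = 0 := by
    intro x hx
    have h1 : P.eval (fourier 1 x : ℂ) = (fourier (N : ℤ) x : ℂ) * ∑ r ∈ R, c r * (fourier r x : ℂ) := by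
      rw [hP, Polynomial.eval_finsetSum, Finset.mul_sum]
      refine Finset.sum_congr rfl fun r hr => ?_
      rw [Polynomial.eval_mul, Polynomial.eval_C, Polynomial.eval_pow, Polynomial.eval_X, ← fourier_pow',
        Int.toNat_of_nonneg (hN r hr), fourier_add]
      ring
    rw [h1, h x hx, mul_zero]
  have hinj : Function.Injective fun x : UnitAddCircle => (fourier 1 x : ℂ) := by
    intro x y hxy
    have hxy : (fourier 1 x : ℂ) = (fourier 1 y : ℂ) := hxy
    rw [fourier_apply, fourier_apply, one_smul, one_smul] at hxy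
    exact AddCircle.injective_toCircle one_ne_zero (Subtype.ext hxy)
  have hP0 : P = 0 := by
    refine Polynomial.eq_zero_of_infinite_isRoot P ?_
    refine (hZ.image hinj.injOn).mono ?_
    rintro _ ⟨x, hx, rfl⟩
    exact hroot x hx
  intro r hr
  have h2 : P.coeff (r + N).toNat = c r := by
    rw [hP, Polynomial.finset_sum_coeff, Finset.sum_eq_single_of_mem r hr]
    · rw [Polynomial.coeff_C_mul, Polynomial.coeff_X_pow, if_pos rfl, mul_one]
    · intro s hs hsr
      rw [Polynomial.coeff_C_mul, Polynomial.coeff_X_pow, if_neg, mul_zero]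
      intro h3
      apply hsr
      have h4 := Int.toNat_of_nonneg (hN r hr)
      have h5 := Int.toNat_of_nonneg (hN s hs)
      omega
  rw [← h2, hP0, Polynomial.coeff_zero]

lemma infinite_of_ae {μ : Measure UnitAddCircle} [IsProbabilityMeasure μ] (hat : ∀ x, μ {x} = 0)
    {p : UnitAddCircle → Prop} (h : ∀ᵐ x ∂μ, p x) : {x | p x}.Infinite := by
  intro hfin
  have h1 : μ {x | p x} = 0 := by
    rw [← Set.biUnion_of_singleton {x | p x}]
    exact (measure_biUnion_null_iff hfin.countable).2 fun y _ => hat y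
  have h2 : μ {x | p x}ᶜ = 0 := h
  have h3 : μ univ ≤ μ {x | p x} + μ {x | p x}ᶜ := by
    rw [← union_compl_self {x | p x}]
    exact measure_union_le _ _
  rw [h1, h2, measure_univ] at h3
  simp at h3

theorem lin_indep {μ : Measure UnitAddCircle} [IsProbabilityMeasure μ]
    (h2 : MeasurePreserving (fun x : UnitAddCircle => 2 • x) μ μ)
    (h3 : MeasurePreserving (fun x : UnitAddCircle => 3 • x) μ μ) (hs : μ ⟂ₘ volume)
    (hat : ∀ x, μ {x} = 0) {M : ℕ} (hM : ∃ i j : ℕ, M = 2 ^ i * 3 ^ j) :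
    LinearIndependent ℂ (fun r : ℤ => fun n : ℤ => ∫ x, (fourier ((M : ℤ) * n + r) x : ℂ) ∂μ) := by
  rw [linearIndependent_iff']
  intro R c hc
  set P : C(UnitAddCircle, ℂ) := ∑ r ∈ R, c r • (fourier r : C(UnitAddCircle, ℂ)) with hP
  have hPapp : ∀ x, P x = ∑ r ∈ R, c r * (fourier r x : ℂ) := by
    intro x
    rw [hP, ContinuousMap.coe_sum, Finset.sum_apply]
    rfl
  have hJ : J (lam μ M P) = 0 := by
    funext n
    show ∫ x, (fourier n (M • x) : ℂ) * P x ∂μ = 0
    have h4 := congrFun hc n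
    rw [Finset.sum_apply] at h4
    simp only [Pi.smul_apply, smul_eq_mul, Pi.zero_apply] at h4
    rw [← h4]
    simp only [← integral_const_mul]
    rw [← integral_finsetSum _ fun r _ => integrable_of_cont μ (by fun_prop)]
    refine integral_congr_ae (Eventually.of_forall fun x => ?_)
    show (fourier n (M • x) : ℂ) * P x = ∑ r ∈ R, c r * (fourier ((M : ℤ) * n + r) x : ℂ)
    rw [hPapp, Finset.mul_sum]
    refine Finset.sum_congr rfl fun r _ => ?_
    rw [fourier_add]
    have e : (fourier n (M • x) : ℂ) = fourier ((M : ℤ) * n) x := by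
      rw [fourier_apply, fourier_apply, mul_comm, mul_smul, natCast_zsmul]
    rw [e]
    ring
  have hL := J_eq_zero _ hJ
  have hrel := rel_zero h2 h3 hs hM {0} (by
    intro θ hθ θ' hθ' hne
    rw [Finset.mem_singleton] at hθ hθ'
    exact absurd (hθ.trans hθ'.symm) hne) (fun _ => P) (fun _ => P.continuous.measurable) (C := ‖P‖)
    (fun _ x => P.norm_coe_le_norm x) (fun ψ => by
      rw [Finset.sum_singleton]
      have := congrArg (fun L : C(UnitAddCircle, ℂ) →L[ℂ] ℂ => L ψ) hL
      simp only [lam_apply, ContinuousLinearMap.zero_apply] at this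
      simpa using this) 0 (Finset.mem_singleton_self 0)
  have hrel' : ∀ᵐ x ∂μ, P x = 0 := hrel
  have hinf := infinite_of_ae hat hrel'
  exact trig_zero hinf fun x hx => by rw [← hPapp]; exact hx

end Pool.Agent.H50.RS
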