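import Pool.Agent.H50.RS.Peak

/-!
The dimension of the kernel at one modulus, and the passage to sequences.
-/

set_option autoImplicit false

open MeasureTheory Filter Topology Set
open scoped ENNReal
open Metric (closedBall mem_closedBall)

namespace Pool.Agent.H50.RS

variable {μ : Measure UnitAddCircle} [IsProbabilityMeasure μ]

/-- the equidistant points -/
noncomputable def pt (n : ℕ) (j : ℕ) : UnitAddCircle := (((j : ℝ) / n : ℝ) : UnitAddCircle)

lemma pt_dist {n : ℕ} {i j : ℕ} (hi : i < n) (hj : j < n) (hij : i ≠ j) :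
    1 / (n : ℝ) ≤ ‖pt n i - pt n j‖ := by
  have hn : (0 : ℝ) < n := by
    have : 0 < n := by omega
    exact_mod_cast this
  unfold pt
  rw [← AddCircle.coe_sub, UnitAddCircle.norm_eq]
  set x : ℝ := (i : ℝ) / n - (j : ℝ) / n with hx
  by_contra hcon
  rw [not_le] at hcon
  have h1 : |((i : ℤ) - (j : ℤ) - n * round x : ℤ)| < (1 : ℤ) := by
    have h2 : |(((i : ℤ) - (j : ℤ) - n * round x : ℤ) : ℝ)| < 1 := by
      have e : (((i : ℤ) - (j : ℤ) - n * round x : ℤ) : ℝ) = n * (x - round x) := by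
        push_cast
        rw [hx]
        field_simp
      rw [e, abs_mul, abs_of_pos hn]
      calc (n : ℝ) * |x - round x| < n * (1 / n) := by gcongr
        _ = 1 := by field_simp
    exact_mod_cast h2
  rw [Int.abs_lt_one_iff] at h1
  have h3 : (i : ℤ) - j = n * round x := by linarith
  have h4 : (n : ℤ) ∣ (i : ℤ) - j := ⟨_, h3⟩
  have h5 : |(i : ℤ) - j| < n := by rw [abs_lt]; constructor <;> omega
  have h6 := Int.eq_zero_of_abs_lt_dvd h4 h5
  omega

lemma indep {l M n : ℕ} (hl : 7 ≤ l) (hM : 1 ≤ M) (hn : 1 ≤ n) (hln : (2 ^ l : ℝ)⁻¹ ≤ 1 / (8 * n))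
    {ε : ℝ} (hε : 0 < ε) (hε1 : ε ≤ 1 / 10) (y : Fin n → UnitAddCircle) (hy : ∀ j, IsGood μ l M ε (y j))
    (hyp : ∀ j : Fin n, ‖M • y j - pt n j‖ ≤ 1 / (8 * n)) (g : Fin n → ℂ)
    (hg : ∑ j, g j • lam μ M (Dsq ((M + 1) / 2) (y j)) = 0) : g = 0 := by
  classical
  have hnR : (0 : ℝ) < n := by exact_mod_cast hn
  set a : ℝ := 1 / (4 * n) with ha
  have ha0 : 0 < a := by positivity
  have ha2 : 2 * a = 1 / (2 * n) := by rw [ha]; field_simp; norm_num
  have ha4 : 4 * a = 1 / n := by rw [ha]; field_simp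
  have ha8 : 1 / (8 * n) + 1 / (8 * n) = a := by rw [ha]; field_simp; norm_num
  set ψ : Fin n → C(UnitAddCircle, ℂ) := fun j => bump a (pt n j) with hψ
  set m := (M + 1) / 2 with hm
  set ρ : ℝ := (2 ^ l * M : ℝ)⁻¹ with hρ
  -- near the centre
  have hnear : ∀ (i : Fin n) (x : UnitAddCircle), ‖x - y i‖ ≤ ρ → ‖M • x - pt n i‖ ≤ a := by
    intro i x hx
    have h1 := mul_near hM hx
    have h2 := hyp i
    have e : M • x - pt n i = (M • x - M • y i) + (M • y i - pt n i) := by abel
    rw [e, ← ha8]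
    exact (norm_add_le _ _).trans (add_le_add (h1.trans hln) h2)
  have hoff : ∀ (i j : Fin n) (z : UnitAddCircle), i ≠ j → ‖z - pt n i‖ < 2 * a → ψ j z = 0 := by
    intro i j z hij hz
    apply bump_zero ha0
    have h1 := pt_dist i.2 j.2 (fun h => hij (Fin.ext h))
    rw [← ha4] at h1
    have e : pt n i - pt n j = (z - pt n j) - (z - pt n i) := by abel
    rw [e] at h1
    have h2 := norm_sub_le (z - pt n j) (z - pt n i)
    linarith
  have hsum : ∀ (i : Fin n) (z : UnitAddCircle), ∑ j ∈ Finset.univ.erase i, ‖ψ j z‖ ≤ 1 := by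
    intro i z
    by_cases h : ∃ k : Fin n, ‖z - pt n k‖ < 2 * a
    · obtain ⟨k, hk⟩ := h
      have h1 : ∀ j ∈ Finset.univ.erase i, j ≠ k → ‖ψ j z‖ = 0 := by
        intro j _ hjk
        rw [hoff k j z (Ne.symm hjk) hk, norm_zero]
      by_cases hki : k ∈ Finset.univ.erase i
      · rw [Finset.sum_eq_single_of_mem k hki h1]
        exact norm_bump_le _ _ _
      · rw [Finset.sum_eq_zero]
        · exact zero_le_one
        · intro j hj
          exact h1 j hj (fun h => hki (h ▸ hj))
    · push Not at h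
      rw [Finset.sum_eq_zero]
      · exact zero_le_one
      · intro j _
        rw [hψ]
        show ‖bump a (pt n j) z‖ = 0
        rw [bump_zero ha0 (h j), norm_zero]
  set A : Matrix (Fin n) (Fin n) ℂ := fun i j => lam μ M (Dsq m (y i)) (ψ j) with hA
  have hdet : A.det ≠ 0 := by
    refine det_ne_zero_of_sum_row_lt_diag fun i => ?_
    set B := μ.real (closedBall (y i) ρ) with hB
    have hBpos : 0 < B := (hy i).1
    have hm0 : 0 < (m : ℝ) := by
      have : 1 ≤ m := by omega
      exact_mod_cast this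
    have h1 := (hy i).peak hl hM (ψ := ψ i) (norm_bump_le _ _) (fun x hx => bump_one ha0 (hnear i x hx))
    have h2 : ∑ j ∈ Finset.univ.erase i, ‖A i j‖ ≤ 3 * ε * (m : ℝ) ^ 2 * B := by
      have h3 : ∀ j ∈ Finset.univ.erase i, ‖A i j‖ ≤
          ∫ x in {x | ρ < ‖x - y i‖}, ‖ψ j (M • x)‖ * ‖D m (x - y i)‖ ^ 2 ∂μ := by
        intro j hj
        have hij : i ≠ j := (Finset.ne_of_mem_erase hj).symm
        have hint : Integrable (fun x => ψ j (M • x) * Dsq m (y i) x) μ := integrable_of_cont μ (by fun_prop)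
        show ‖lam μ M (Dsq m (y i)) (ψ j)‖ ≤ _
        rw [lam_apply, ← integral_add_compl (s := closedBall (y i) ρ)
          Metric.isClosed_closedBall.measurableSet hint, compl_ball]
        have h0 : ∫ x in closedBall (y i) ρ, ψ j (M • x) * Dsq m (y i) x ∂μ = 0 := by
          refine setIntegral_eq_zero_of_forall_eq_zero fun x hx => ?_
          rw [mem_closedBall, dist_eq_norm] at hx
          have h5 := hnear i x hx
          rw [hoff i j (M • x) hij (by linarith), zero_mul]
        rw [h0, zero_add]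
        refine (norm_integral_le_integral_norm _).trans (le_of_eq ?_)
        refine integral_congr_ae (Eventually.of_forall fun x => ?_)
        show ‖ψ j (M • x) * Dsq m (y i) x‖ = _
        rw [norm_mul, Dsq_apply, norm_pow]
      refine (Finset.sum_le_sum h3).trans ?_
      rw [← integral_finsetSum _ fun j _ =>
        (integrable_of_contR μ (by have := continuous_D m; fun_prop)).integrableOn]
      refine le_trans ?_ (hy i).2
      refine integral_mono (integrable_of_contR μ (by have := continuous_D m; fun_prop)).integrableOn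
        (integrable_of_contR μ (by have := continuous_D m; fun_prop)).integrableOn fun x => ?_
      show ∑ j ∈ Finset.univ.erase i, ‖ψ j (M • x)‖ * ‖D m (x - y i)‖ ^ 2 ≤ ‖D m (x - y i)‖ ^ 2
      rw [← Finset.sum_mul]
      have h6 : 0 ≤ ‖D m (x - y i)‖ ^ 2 := by positivity
      have h7 := hsum i (M • x)
      nlinarith
    have hX : 0 < (m : ℝ) ^ 2 * B := by positivity
    refine lt_of_le_of_lt h2 (lt_of_lt_of_le ?_ h1)
    nlinarith
  have hv : Matrix.vecMul g A = 0 := by
    funext j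
    have h1 := congrArg (fun L : C(UnitAddCircle, ℂ) →L[ℂ] ℂ => L (ψ j)) hg
    simp only [ContinuousLinearMap.zero_apply] at h1
    rw [ContinuousLinearMap.sum_apply] at h1
    rw [Pi.zero_apply, ← h1]
    show ∑ i, g i * A i j = _
    refine Finset.sum_congr rfl fun i _ => ?_
    rw [ContinuousLinearMap.smul_apply, smul_eq_mul]
  exact Matrix.eq_zero_of_vecMul_eq_zero hdet hv

/-- the coefficients of a functional -/
noncomputable def J : (C(UnitAddCircle, ℂ) →L[ℂ] ℂ) →ₗ[ℂ] (ℤ → ℂ) where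
  toFun := fun L n => L (fourier n)
  map_add' := fun L L' => by funext n; rfl
  map_smul' := fun c L => by funext n; rfl

lemma J_eq_zero (L : C(UnitAddCircle, ℂ) →L[ℂ] ℂ) (hL : J L = 0) : L = 0 := by
  have h1 : (Submodule.span ℂ (range (fourier (T := (1 : ℝ))))).topologicalClosure ≤
      LinearMap.ker (L : C(UnitAddCircle, ℂ) →ₗ[ℂ] ℂ) := by
    refine Submodule.topologicalClosure_minimal _ ?_ L.isClosed_ker
    rw [Submodule.span_le]
    rintro _ ⟨n, rfl⟩
    exact congrFun hL n
  rw [span_fourier_closure_eq_top] at h1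
  ext ψ
  exact h1 (Submodule.mem_top (x := ψ))

lemma J_inj : Function.Injective J := by
  intro L L' h
  have h1 : J (L - L') = 0 := by
    funext n
    show L (fourier n) - L' (fourier n) = 0
    have := congrFun h n
    have h2 : L (fourier n) = L' (fourier n) := this
    rw [h2, sub_self]
  exact sub_eq_zero.1 (J_eq_zero _ h1)

/-- the sequence `n ↦ μ^(M n + r)` -/
noncomputable def seq (μ : Measure UnitAddCircle) (M r : ℕ) : ℤ → ℂ :=
  fun n => ∫ x, (fourier ((M : ℤ) * n + r) x : ℂ) ∂μ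

lemma J_lam (M r : ℕ) : J (lam μ M (fourier (r : ℤ))) = seq μ M r := by
  funext n
  show ∫ x, (fourier n (M • x) : ℂ) * fourier (r : ℤ) x ∂μ = ∫ x, (fourier ((M : ℤ) * n + r) x : ℂ) ∂μ
  refine integral_congr_ae (Eventually.of_forall fun x => ?_)
  show (fourier n (M • x) : ℂ) * fourier (r : ℤ) x = (fourier ((M : ℤ) * n + r) x : ℂ)
  rw [fourier_add]
  congr 1
  rw [fourier_apply, fourier_apply, mul_comm, mul_smul, natCast_zsmul]

/-- the kernel at the modulus `M` -/
def ker (μ : Measure UnitAddCircle) (M : ℕ) : Set (ℤ → ℂ) := {f | ∃ r : ℕ, r < M ∧ f = seq μ M r}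

lemma J_gens (M : ℕ) : J '' (gens μ M) = ker μ M := by
  ext f
  constructor
  · rintro ⟨L, ⟨r, hr, rfl⟩, rfl⟩
    exact ⟨r, hr, J_lam M r⟩
  · rintro ⟨r, hr, rfl⟩
    exact ⟨_, ⟨r, hr, rfl⟩, J_lam M r⟩

theorem infinite_seq (hμ : Conc μ) (hat : ∀ x, μ {x} = 0) {S : Set ℕ} (hS : S.Infinite) :
    ¬ FiniteDimensional ℂ (Submodule.span ℂ (⋃ M ∈ S, ker μ M)) := by
  intro h
  have hfg : (Submodule.span ℂ (⋃ M ∈ S, ker μ M)).FG := Module.Finite.iff_fg.1 h
  apply infinite_span hμ hat hS
  have e : (Submodule.span ℂ (⋃ M ∈ S, gens μ M)).map J = Submodule.span ℂ (⋃ M ∈ S, ker μ M) := by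
    rw [Submodule.map_span, image_iUnion₂]
    congr 1
    refine iUnion₂_congr fun M _ => J_gens M
  rw [← e] at hfg
  exact Submodule.fg_of_fg_map_injective J J_inj hfg

lemma ker_finite (μ : Measure UnitAddCircle) (M : ℕ) : (ker μ M).Finite := by
  have : ker μ M = (fun r => seq μ M r) '' (Set.Iio M) := by
    ext f
    constructor
    · rintro ⟨r, hr, rfl⟩; exact ⟨r, hr, rfl⟩
    · rintro ⟨r, hr, rfl⟩; exact ⟨r, hr, rfl⟩
  rw [this]
  exact (Set.finite_Iio M).image _

theorem finrank_ge {M n : ℕ} (y : Fin n → UnitAddCircle)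
    (h : ∀ g : Fin n → ℂ, ∑ j, g j • lam μ M (Dsq ((M + 1) / 2) (y j)) = 0 → g = 0) :
    n ≤ Module.finrank ℂ (Submodule.span ℂ (ker μ M)) := by
  have hfin : FiniteDimensional ℂ (Submodule.span ℂ (ker μ M)) :=
    FiniteDimensional.span_of_finite ℂ (ker_finite μ M)
  have hmem : ∀ j, J (lam μ M (Dsq ((M + 1) / 2) (y j))) ∈ Submodule.span ℂ (ker μ M) := by
    intro j
    have h1 := lam_Dsq_mem μ (M := M) (m := (M + 1) / 2) (by omega) (y j)
    rw [← J_gens, ← Submodule.map_span]
    exact Submodule.mem_map_of_mem h1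
  have h2 : LinearIndependent ℂ (fun j => J (lam μ M (Dsq ((M + 1) / 2) (y j)))) := by
    rw [Fintype.linearIndependent_iff]
    intro g hg i
    have h5 : J (∑ j, g j • lam μ M (Dsq ((M + 1) / 2) (y j))) = 0 := by
      rw [map_sum, ← hg]
      refine Finset.sum_congr rfl fun j _ => ?_
      rw [map_smul]
    rw [h g (J_eq_zero _ h5)]
    rfl
  have h3 : LinearIndependent ℂ (fun j => (⟨_, hmem j⟩ : Submodule.span ℂ (ker μ M))) := by
    refine LinearIndependent.of_comp (Submodule.subtype _) ?_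
    exact h2
  have := h3.fintype_card_le_finrank
  rwa [Fintype.card_fin] at this

/-- the real bump -/
noncomputable def bumpR (a : ℝ) (c : UnitAddCircle) : C(UnitAddCircle, ℝ) :=
  ⟨fun z => max 0 (min 1 (2 - ‖z - c‖ / a)), by fun_prop⟩

lemma bumpR_integral {a : ℝ} (ha : 0 < a) (ha1 : a ≤ 1 / 2) (c : UnitAddCircle) :
    2 * a ≤ ∫ z, bumpR a c z := by
  have h1 : (volume : Measure UnitAddCircle).real (closedBall c a) = 2 * a := by
    rw [measureReal_def, AddCircle.volume_closedBall, min_eq_right (by linarith),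
      ENNReal.toReal_ofReal (by positivity)]
  rw [← h1, ← mul_one ((volume : Measure UnitAddCircle).real (closedBall c a)), ← smul_eq_mul,
    ← integral_indicator_const (1 : ℝ) Metric.isClosed_closedBall.measurableSet]
  have hfin : IsFiniteMeasure (volume : Measure UnitAddCircle) := inferInstance
  refine integral_mono ((integrable_const _).indicator Metric.isClosed_closedBall.measurableSet)
    ((bumpR a c).continuous.integrable_of_hasCompactSupport (HasCompactSupport.of_compactSpace _)) fun z => ?_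
  show (closedBall c a).indicator (fun _ => (1 : ℝ)) z ≤ max 0 (min 1 (2 - ‖z - c‖ / a))
  by_cases h : z ∈ closedBall c a
  · rw [indicator_of_mem h]
    rw [mem_closedBall, dist_eq_norm] at h
    have h2 : ‖z - c‖ / a ≤ 1 := (div_le_one ha).2 h
    rw [min_eq_left (by linarith)]
    exact le_max_right _ _
  · rw [indicator_of_notMem h]
    exact le_max_left _ _

theorem dim_tendsto (hμ : Conc μ) {F : Filter ℕ} (hF : F ≤ atTop)
    (hequi : ∀ f : C(UnitAddCircle, ℝ), Tendsto (fun c : ℕ => ∫ x, f (c • x) ∂μ) F (𝓝 (∫ x, f x))) :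
    Tendsto (fun M => Module.finrank ℂ (Submodule.span ℂ (ker μ M))) F atTop := by
  rw [tendsto_atTop]
  intro n0
  obtain ⟨n, hn, hn1⟩ : ∃ n, n0 ≤ n ∧ 1 ≤ n := ⟨n0 + 1, by omega, by omega⟩
  have hnR : (1 : ℝ) ≤ n := by exact_mod_cast hn1
  have hnR0 : (0 : ℝ) < n := by linarith
  set a : ℝ := 1 / (16 * n) with ha
  have ha0 : 0 < a := by positivity
  have ha1 : a ≤ 1 / 2 := by
    rw [ha, div_le_div_iff₀ (by positivity) (by norm_num)]; linarith
  set ε : ℝ := 1 / (100 * n) with hε
  have hε0 : 0 < ε := by positivity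
  have hε1 : ε ≤ 1 / 10 := by
    rw [hε, div_le_div_iff₀ (by positivity) (by norm_num)]; linarith
  obtain ⟨l, hl7, hl⟩ : ∃ l : ℕ, 7 ≤ l ∧ (2 ^ l : ℝ)⁻¹ ≤ 1 / (8 * n) := by
    have h1 : Tendsto (fun l : ℕ => (2 ^ l : ℝ)⁻¹) atTop (𝓝 0) := by
      have : Tendsto (fun l : ℕ => ((2 : ℝ)⁻¹) ^ l) atTop (𝓝 0) :=
        tendsto_pow_atTop_nhds_zero_of_lt_one (by norm_num) (by norm_num)
      simpa using this
    obtain ⟨l, h3, h4⟩ := ((h1.eventually_le_const (show (0 : ℝ) < 1 / (8 * n) by positivity)).and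
      (eventually_ge_atTop 7)).exists
    exact ⟨l, h4, h3⟩
  have hgood := hF (exists_good hμ l hε0 (hε1.trans (by norm_num)))
  have hlarge : ∀ᶠ M in F, 1 ≤ M := hF (eventually_ge_atTop 1)
  have hmass : ∀ᶠ M in F, ∀ j : Fin n, 2 * ε < ∫ x, bumpR a (pt n j) (M • x) ∂μ := by
    refine eventually_all.2 fun j => ?_
    refine (hequi (bumpR a (pt n j))).eventually_const_lt ?_
    refine lt_of_lt_of_le ?_ (bumpR_integral ha0 ha1 _)
    rw [hε, ha, mul_one_div, mul_one_div, div_lt_div_iff₀ (by positivity) (by positivity)]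
    nlinarith
  filter_upwards [hgood, hlarge, hmass] with M h1 h2 h3
  obtain ⟨E, hE1, hE2⟩ := h1
  have hex : ∀ j : Fin n, ∃ y ∈ E, ‖M • y - pt n j‖ ≤ 1 / (8 * n) := by
    intro j
    by_contra hcon
    push Not at hcon
    have h4 : ∫ x, bumpR a (pt n j) (M • x) ∂μ ≤ μ.real Eᶜ := by
      have h5 : μ.real Eᶜ = μ.real (toMeasurable μ Eᶜ) := by
        rw [measureReal_def, measureReal_def, measure_toMeasurable]
      rw [h5, ← mul_one (μ.real (toMeasurable μ Eᶜ)), ← smul_eq_mul,
        ← integral_indicator_const (1 : ℝ) (measurableSet_toMeasurable μ Eᶜ)]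
      refine integral_mono (integrable_of_contR μ (by fun_prop))
        ((integrable_const _).indicator (measurableSet_toMeasurable μ Eᶜ)) fun x => ?_
      show max 0 (min 1 (2 - ‖M • x - pt n j‖ / a)) ≤ (toMeasurable μ Eᶜ).indicator (fun _ => (1 : ℝ)) x
      by_cases hx : x ∈ E
      · have h6 := hcon x hx
        have h7 : 2 ≤ ‖M • x - pt n j‖ / a := by
          rw [le_div_iff₀ ha0]
          have : 2 * a = 1 / (8 * n) := by rw [ha]; field_simp; norm_num
          linarith
        rw [min_eq_right (by linarith), max_eq_left (by linarith)]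
        exact indicator_nonneg (fun _ _ => zero_le_one) _
      · rw [indicator_of_mem (subset_toMeasurable μ Eᶜ hx)]
        exact max_le zero_le_one (min_le_left _ _)
    have h5 := h3 j
    linarith
  choose y hyE hyp using hex
  exact hn.trans (finrank_ge y (indep hl7 h2 hn1 hl hε0 hε1 y (fun j => hE2 _ (hyE j)) hyp))

end Pool.Agent.H50.RS
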