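import Pool.Graph.R_pool_sql_team_seeded_620a6dc7.Results.MP_e27144_an.LocalMass
import Pool.Graph.R_pool_sql_team_seeded_843ab51a.V1194.TR.Bad

/-!
The Dirichlet kernel on the circle and its far field.
-/

set_option autoImplicit false

open MeasureTheory Filter Topology Set
open scoped ENNReal
open Metric (closedBall mem_closedBall)

namespace Pool.Agent.H50.RS

/-- the Dirichlet kernel -/
noncomputable def D (m : ℕ) (x : UnitAddCircle) : ℂ :=
  ∑ r ∈ Finset.range m, (fourier (r : ℤ) x : ℂ)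

lemma norm_fourier' (n : ℤ) (x : UnitAddCircle) : ‖(fourier n x : ℂ)‖ = 1 := by
  rw [fourier_apply]; exact Circle.norm_coe _

lemma continuous_D (m : ℕ) : Continuous (D m) := by
  unfold D
  exact continuous_finsetSum _ fun n _ => map_continuous _

lemma norm_D_le (m : ℕ) (x : UnitAddCircle) : ‖D m x‖ ≤ m := by
  unfold D
  refine (norm_sum_le _ _).trans ?_
  simp only [norm_fourier']
  simp

lemma fourier_pow' (r : ℕ) (x : UnitAddCircle) :
    (fourier (r : ℤ) x : ℂ) = (fourier 1 x : ℂ) ^ r := by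
  rw [fourier_apply, fourier_apply, natCast_zsmul, AddCircle.toCircle_nsmul, one_smul,
    Circle.coe_pow]

lemma exists_rep (x : UnitAddCircle) : ∃ t : ℝ, (t : UnitAddCircle) = x ∧ ‖x‖ = |t| ∧ |t| ≤ 1 / 2 := by
  obtain ⟨s, rfl⟩ := QuotientAddGroup.mk_surjective x
  refine ⟨s - round s, ?_, ?_, abs_sub_round s⟩
  · rw [AddCircle.coe_sub]
    have : ((round s : ℝ) : UnitAddCircle) = 0 := by
      rw [AddCircle.coe_eq_zero_iff]
      exact ⟨round s, by simp⟩
    rw [this, sub_zero]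
  · exact UnitAddCircle.norm_eq

lemma fourier_coe' (n : ℤ) (t : ℝ) :
    (fourier n (t : UnitAddCircle) : ℂ) = Complex.exp (Complex.I * ((2 * Real.pi * n * t : ℝ) : ℂ)) := by
  rw [fourier_coe_apply]
  congr 1
  push_cast
  ring

lemma fourier_one_sub_ge (x : UnitAddCircle) : 4 * ‖x‖ ≤ ‖(fourier 1 x : ℂ) - 1‖ := by
  obtain ⟨t, rfl, ht, ht2⟩ := exists_rep x
  rw [ht, fourier_coe', Complex.norm_exp_I_mul_ofReal_sub_one]
  have e : 2 * Real.pi * ((1 : ℤ) : ℝ) * t / 2 = Real.pi * t := by push_cast; ring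
  rw [e, norm_mul, Real.norm_eq_abs, Real.norm_eq_abs, abs_two]
  have h1 : 2 * |t| ≤ |Real.sin (Real.pi * t)| := by
    have h2 : |Real.sin (Real.pi * t)| = |Real.sin (Real.pi * |t|)| := by
      rcases abs_cases t with ⟨h, _⟩ | ⟨h, _⟩
      · rw [h]
      · rw [h, mul_neg, Real.sin_neg, abs_neg]
    rw [h2]
    have h3 := Real.mul_le_sin (x := Real.pi * |t|) (by positivity) (by
      have := Real.pi_pos
      nlinarith)
    have h4 : 2 / Real.pi * (Real.pi * |t|) = 2 * |t| := by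
      have := Real.pi_pos.ne'
      field_simp
    rw [h4] at h3
    exact h3.trans (le_abs_self _)
  linarith

lemma fourier_sub_one_le (n : ℕ) (x : UnitAddCircle) :
    ‖(fourier (n : ℤ) x : ℂ) - 1‖ ≤ 2 * Real.pi * n * ‖x‖ := by
  obtain ⟨t, rfl, ht, ht2⟩ := exists_rep x
  rw [ht, fourier_coe']
  refine (Real.norm_exp_I_mul_ofReal_sub_one_le).trans ?_
  rw [Real.norm_eq_abs, abs_mul, abs_of_nonneg (by have := Real.pi_pos; positivity)]
  push_cast
  exact le_rfl

lemma D_mul (m : ℕ) (x : UnitAddCircle) : D m x * ((fourier 1 x : ℂ) - 1) = fourier (m : ℤ) x - 1 := by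
  unfold D
  simp only [fourier_pow']
  exact geom_sum_mul _ _

lemma norm_D_mul (m : ℕ) (x : UnitAddCircle) : ‖D m x‖ * (2 * ‖x‖) ≤ 1 := by
  have h1 := congrArg norm (D_mul m x)
  rw [norm_mul] at h1
  have h2 := fourier_one_sub_ge x
  have h3 : ‖(fourier (m : ℤ) x : ℂ) - 1‖ ≤ 2 := by
    refine (norm_sub_le _ _).trans ?_
    rw [norm_fourier', norm_one]; norm_num
  have h4 : ‖D m x‖ * (4 * ‖x‖) ≤ 2 := by
    refine le_trans (mul_le_mul_of_nonneg_left h2 (norm_nonneg _)) ?_
    rw [h1]; exact h3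
  linarith

lemma norm_D_sub (m : ℕ) (x : UnitAddCircle) : ‖D m x - m‖ ≤ 2 * Real.pi * m ^ 2 * ‖x‖ := by
  unfold D
  have h : (∑ r ∈ Finset.range m, (fourier (r : ℤ) x : ℂ)) - m =
      ∑ r ∈ Finset.range m, ((fourier (r : ℤ) x : ℂ) - 1) := by
    rw [Finset.sum_sub_distrib]; simp
  rw [h]
  refine (norm_sum_le _ _).trans ?_
  have : ∀ r ∈ Finset.range m, ‖(fourier (r : ℤ) x : ℂ) - 1‖ ≤ 2 * Real.pi * m * ‖x‖ := by
    intro r hr
    refine (fourier_sub_one_le r x).trans ?_
    have h1 : (r : ℝ) ≤ m := by exact_mod_cast (Finset.mem_range.1 hr).le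
    have := Real.pi_pos
    gcongr
  refine (Finset.sum_le_sum this).trans ?_
  rw [Finset.sum_const, Finset.card_range, nsmul_eq_mul]
  apply le_of_eq
  ring

section far

variable (μ : Measure UnitAddCircle) [IsFiniteMeasure μ]

lemma ball_int (k : ℕ) (y : UnitAddCircle) {ρ : ℝ} (hρ : 0 ≤ ρ) :
    ∫⁻ x in closedBall y (2 ^ k * ρ), (μ (closedBall x ρ))⁻¹ ∂μ ≤ 2 ^ (k + 1) := by
  induction k generalizing y with
  | zero => simpa using Pool.Agent.H806.Gap.inner_le μ y hρ
  | succ k ih =>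
    have h1 := Pool.Agent.H806.Gap.ball_cover y (r := 2 ^ (k + 1) * ρ) (by positivity)
    have e : (2 : ℝ) ^ (k + 1) * ρ / 2 = 2 ^ k * ρ := by rw [pow_succ]; ring
    rw [e] at h1
    refine (lintegral_mono_set h1).trans ((lintegral_union_le _ _ _).trans ?_)
    refine (add_le_add (ih _) (ih _)).trans ?_
    rw [← two_mul, ← pow_succ']

lemma measurable_ball' (r : ℝ) : Measurable fun x => μ (closedBall x r) :=
  Pool.Agent.H806.Gap.measurable_ball μ r

/-- the far field of `1 / (2 t) ^ 2` from a point -/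
lemma far_point (k : ℕ) (x : UnitAddCircle) {ρ : ℝ} (hρ : 0 < ρ) :
    ∫⁻ y in {y | 2 ^ k * ρ < ‖x - y‖}, ENNReal.ofReal (1 / (2 * ‖x - y‖) ^ 2) *
      (μ (closedBall y ρ))⁻¹ ∂μ ≤ ENNReal.ofReal (2 / (2 ^ k * ρ ^ 2)) := by
  set r : ℝ := 2 ^ k * ρ with hr
  have hr0 : 0 < r := by positivity
  set ring : ℕ → Set UnitAddCircle := fun i => {y | 2 ^ i * r < ‖x - y‖ ∧ ‖x - y‖ ≤ 2 ^ (i + 1) * r}
    with hring
  have hcov : {y : UnitAddCircle | r < ‖x - y‖} ⊆ ⋃ i, ring i := by
    intro y hy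
    have hy : r < ‖x - y‖ := hy
    -- the largest `i` with `2 ^ i * r < ‖x - y‖`
    have hex : ∃ i : ℕ, ‖x - y‖ ≤ 2 ^ (i + 1) * r := by
      have h1 : Tendsto (fun i : ℕ => (2 : ℝ) ^ (i + 1) * r) atTop atTop :=
        ((tendsto_pow_atTop_atTop_of_one_lt (by norm_num : (1 : ℝ) < 2)).comp
          (tendsto_add_atTop_nat 1)).atTop_mul_const hr0
      exact (h1.eventually_ge_atTop _).exists
    classical
    refine mem_iUnion.2 ⟨Nat.find hex, ?_, Nat.find_spec hex⟩
    rcases Nat.eq_zero_or_pos (Nat.find hex) with h0 | h0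
    · rw [h0]; simpa using hy
    · have h1 := Nat.find_min hex (m := Nat.find hex - 1) (by omega)
      rw [Nat.sub_add_cancel h0, not_le] at h1
      exact h1
  have hring_le : ∀ i, ∫⁻ y in ring i, ENNReal.ofReal (1 / (2 * ‖x - y‖) ^ 2) *
      (μ (closedBall y ρ))⁻¹ ∂μ ≤ ENNReal.ofReal (1 / (2 ^ k * ρ ^ 2) * (1 / 2) ^ i) := by
    intro i
    have hmeas : MeasurableSet (ring i) := by
      have hc : Continuous fun y : UnitAddCircle => ‖x - y‖ := by fun_prop
      exact (measurableSet_lt measurable_const hc.measurable).inter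
        (measurableSet_le hc.measurable measurable_const)
    have h1 : ∫⁻ y in ring i, ENNReal.ofReal (1 / (2 * ‖x - y‖) ^ 2) *
        (μ (closedBall y ρ))⁻¹ ∂μ ≤
        ∫⁻ y in ring i, ENNReal.ofReal (1 / (2 * (2 ^ i * r)) ^ 2) * (μ (closedBall y ρ))⁻¹ ∂μ := by
      refine setLIntegral_mono' hmeas fun y hy => ?_
      gcongr
      exact hy.1.le
    refine h1.trans ?_
    rw [lintegral_const_mul' _ _ ENNReal.ofReal_ne_top]
    have h2 : ring i ⊆ closedBall x (2 ^ (i + 1 + k) * ρ) := by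
      intro y hy
      rw [mem_closedBall, dist_comm, dist_eq_norm]
      refine hy.2.trans (le_of_eq ?_)
      rw [hr, pow_add 2 (i + 1) k]; ring
    refine (mul_le_mul_right ((lintegral_mono_set h2).trans (ball_int μ (i + 1 + k) x hρ.le)) _).trans ?_
    have h3 : (2 : ℝ≥0∞) ^ (i + 1 + k + 1) = ENNReal.ofReal (2 ^ (i + 1 + k + 1)) := by
      rw [ENNReal.ofReal_pow (by norm_num)]
      norm_num
    rw [h3, ← ENNReal.ofReal_mul (by positivity)]
    refine ENNReal.ofReal_le_ofReal (le_of_eq ?_)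
    rw [hr]
    have : (2 : ℝ) ^ (i + 1 + k + 1) = 4 * 2 ^ i * 2 ^ k := by ring
    rw [this, one_div_pow]
    field_simp
    norm_num
  refine (lintegral_mono_set hcov).trans ((lintegral_iUnion_le _ _).trans ?_)
  refine (ENNReal.tsum_le_tsum hring_le).trans ?_
  rw [← ENNReal.ofReal_tsum_of_nonneg (fun i => by positivity)
    ((summable_geometric_of_lt_one (by norm_num) (by norm_num)).mul_left _)]
  refine ENNReal.ofReal_le_ofReal ?_
  rw [tsum_mul_left, tsum_geometric_of_lt_one (by norm_num) (by norm_num)]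
  apply le_of_eq
  field_simp
  norm_num

/-- the far field relative to the mass of a small ball, in the mean -/
lemma far_mean (k : ℕ) {ρ : ℝ} (hρ : 0 < ρ) :
    ∫⁻ y, (∫⁻ x in {x | 2 ^ k * ρ < ‖x - y‖}, ENNReal.ofReal (1 / (2 * ‖x - y‖) ^ 2) ∂μ) *
      (μ (closedBall y ρ))⁻¹ ∂μ ≤ ENNReal.ofReal (2 / (2 ^ k * ρ ^ 2)) * μ univ := by
  set r : ℝ := 2 ^ k * ρ with hr
  set F : UnitAddCircle → UnitAddCircle → ℝ≥0∞ := fun y x =>
    ({w : UnitAddCircle × UnitAddCircle | r < ‖w.2 - w.1‖}.indicator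
      (fun w => ENNReal.ofReal (1 / (2 * ‖w.2 - w.1‖) ^ 2) * (μ (closedBall w.1 ρ))⁻¹)) (y, x) with hF
  have hS : MeasurableSet {w : UnitAddCircle × UnitAddCircle | r < ‖w.2 - w.1‖} := by
    have hc : Continuous fun w : UnitAddCircle × UnitAddCircle => ‖w.2 - w.1‖ := by fun_prop
    exact measurableSet_lt measurable_const hc.measurable
  have hFm : Measurable (Function.uncurry F) := by
    have h1 : Measurable (({w : UnitAddCircle × UnitAddCircle | r < ‖w.2 - w.1‖}.indicator
      (fun w : UnitAddCircle × UnitAddCircle => ENNReal.ofReal (1 / (2 * ‖w.2 - w.1‖) ^ 2) *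
        (μ (closedBall w.1 ρ))⁻¹))) := by
      refine Measurable.indicator ?_ hS
      refine Measurable.mul ?_ ((measurable_ball' μ ρ).comp measurable_fst).inv
      refine ENNReal.measurable_ofReal.comp ?_
      refine measurable_const.div ?_
      have hc : Continuous fun w : UnitAddCircle × UnitAddCircle => (2 * ‖w.2 - w.1‖) ^ 2 := by
        fun_prop
      exact hc.measurable
    exact h1
  have h1 : ∀ y, (∫⁻ x in {x | r < ‖x - y‖}, ENNReal.ofReal (1 / (2 * ‖x - y‖) ^ 2) ∂μ) *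
      (μ (closedBall y ρ))⁻¹ = ∫⁻ x, F y x ∂μ := by
    intro y
    have hSy : MeasurableSet {x : UnitAddCircle | r < ‖x - y‖} := by
      have hc : Continuous fun x : UnitAddCircle => ‖x - y‖ := by fun_prop
      exact measurableSet_lt measurable_const hc.measurable
    rw [← lintegral_mul_const _ (by
      refine ENNReal.measurable_ofReal.comp ?_
      refine measurable_const.div ?_
      have hc : Continuous fun x : UnitAddCircle => (2 * ‖x - y‖) ^ 2 := by fun_prop
      exact hc.measurable), ← lintegral_indicator hSy]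
    rfl
  simp only [h1]
  rw [lintegral_lintegral_swap hFm.aemeasurable]
  have h2 : ∀ x, ∫⁻ y, F y x ∂μ ≤ ENNReal.ofReal (2 / (2 ^ k * ρ ^ 2)) := by
    intro x
    have h3 := far_point μ k x hρ
    rw [← hr] at h3
    refine le_trans (le_of_eq ?_) h3
    have hSx : MeasurableSet {y : UnitAddCircle | r < ‖x - y‖} := by
      have hc : Continuous fun y : UnitAddCircle => ‖x - y‖ := by fun_prop
      exact measurableSet_lt measurable_const hc.measurable
    rw [← lintegral_indicator hSx]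
    rfl
  refine (lintegral_mono h2).trans ?_
  rw [lintegral_const]

end far

end Pool.Agent.H50.RS
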