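import Pool.Agent.H50.RS.Dir

/-!
Most points are good: the mass of the kernel `|D|²` centred at the point is concentrated in a ball
of radius a small multiple of the inverse of the degree.
-/

set_option autoImplicit false

open MeasureTheory Filter Topology Set
open scoped ENNReal
open Metric (closedBall mem_closedBall)

namespace Pool.Agent.H50.RS

/-- at small scales most of the mass of a ball is near its centre -/
def Conc (μ : Measure UnitAddCircle) : Prop :=
  Tendsto (fun r : ℝ => ∫ x, μ.real (closedBall x (r / Real.log (1 / r) ^ (1 : ℝ))) /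
    μ.real (closedBall x r) ∂μ) (𝓝[>] 0) (𝓝 1)

variable {μ : Measure UnitAddCircle} [IsProbabilityMeasure μ]

lemma measurable_ball_real (r : ℝ) : Measurable fun x => μ.real (closedBall x r) :=
  (measurable_ball' μ r).ennreal_toReal

lemma ratio_good (hμ : Conc μ) (k : ℕ) {ε : ℝ} (hε : 0 < ε) :
    ∀ᶠ ρ in 𝓝[>] (0 : ℝ),
      μ.real {x | μ.real (closedBall x ρ) < (1 - ε) * μ.real (closedBall x (2 ^ k * ρ))} ≤ ε := by
  have h1 : ∀ᶠ r in 𝓝[>] (0 : ℝ), 1 - ε ^ 2 < ∫ x, μ.real (closedBall x (r / Real.log (1 / r) ^ (1 : ℝ))) /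
      μ.real (closedBall x r) ∂μ := by
    refine (tendsto_order.1 hμ).1 _ ?_
    have : 0 < ε ^ 2 := by positivity
    linarith
  have h2 : ∀ᶠ r in 𝓝[>] (0 : ℝ), (2 : ℝ) ^ k ≤ Real.log (1 / r) := by
    have h3 : Tendsto (fun r : ℝ => Real.log (1 / r)) (𝓝[>] 0) atTop := by
      refine Real.tendsto_log_atTop.comp ?_
      have e : (fun r : ℝ => 1 / r) = fun r => r⁻¹ := by funext r; exact one_div r
      show Tendsto (fun r : ℝ => 1 / r) (𝓝[>] 0) atTop
      rw [e]
      exact tendsto_inv_nhdsGT_zero (𝕜 := ℝ)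
    exact h3.eventually_ge_atTop _
  have hsc : Tendsto (fun ρ : ℝ => 2 ^ k * ρ) (𝓝[>] 0) (𝓝[>] 0) := by
    refine tendsto_nhdsWithin_iff.2 ⟨?_, ?_⟩
    · have : Tendsto (fun ρ : ℝ => 2 ^ k * ρ) (𝓝 0) (𝓝 (2 ^ k * 0)) := tendsto_id.const_mul _
      rw [mul_zero] at this
      exact this.mono_left nhdsWithin_le_nhds
    · filter_upwards [self_mem_nhdsWithin] with ρ hρ
      have hρ : 0 < ρ := hρ
      show 0 < 2 ^ k * ρ
      positivity
  filter_upwards [hsc.eventually h1, hsc.eventually h2, self_mem_nhdsWithin] with ρ h3 h4 hρ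
  have hρ : 0 < ρ := hρ
  set r := 2 ^ k * ρ with hr
  have hr0 : 0 < r := by positivity
  set s := r / Real.log (1 / r) ^ (1 : ℝ) with hs
  have hsρ : s ≤ ρ := by
    rw [hs, Real.rpow_one, div_le_iff₀ (lt_of_lt_of_le (by positivity) h4)]
    calc r = ρ * 2 ^ k := by rw [hr, mul_comm]
      _ ≤ ρ * Real.log (1 / r) := mul_le_mul_of_nonneg_left h4 hρ.le
  set f : UnitAddCircle → ℝ := fun x => μ.real (closedBall x s) / μ.real (closedBall x r) with hf
  have hsr : s ≤ r := hsρ.trans (by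
    rw [hr]
    have : (1 : ℝ) ≤ 2 ^ k := one_le_pow₀ (by norm_num)
    nlinarith)
  have hf1 : ∀ x, f x ≤ 1 := fun x =>
    div_le_one_of_le₀ (measureReal_mono (Metric.closedBall_subset_closedBall hsr)) measureReal_nonneg
  have hf0 : ∀ x, 0 ≤ f x := fun x => by positivity
  have hfm : Measurable f := (measurable_ball_real s).div (measurable_ball_real r)
  have hfi : Integrable f μ := by
    refine Integrable.mono' (integrable_const (1 : ℝ)) hfm.aestronglyMeasurable
      (Eventually.of_forall fun x => ?_)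
    rw [Real.norm_of_nonneg (hf0 x)]; exact hf1 x
  have hm := mul_meas_ge_le_integral_of_nonneg (μ := μ) (f := fun x => 1 - f x)
    (Eventually.of_forall fun x => by simpa using hf1 x) ((integrable_const _).sub hfi) ε
  have h5 : ∫ x, (1 - f x) ∂μ ≤ ε ^ 2 := by
    rw [integral_sub (integrable_const _) hfi]
    simp only [integral_const, smul_eq_mul, mul_one, probReal_univ]
    have : 1 - ε ^ 2 < ∫ x, f x ∂μ := h3
    linarith
  have h6 : {x | μ.real (closedBall x ρ) < (1 - ε) * μ.real (closedBall x r)} ⊆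
      {x | ε ≤ 1 - f x} := by
    intro x hx
    have hx : μ.real (closedBall x ρ) < (1 - ε) * μ.real (closedBall x r) := hx
    show ε ≤ 1 - f x
    have hB : 0 < μ.real (closedBall x r) := by
      rcases (measureReal_nonneg (μ := μ) (s := closedBall x r)).eq_or_lt with h | h
      · rw [← h, mul_zero] at hx
        exact absurd hx (not_lt.2 measureReal_nonneg)
      · exact h
    have h7 : f x ≤ 1 - ε := by
      show μ.real (closedBall x s) / μ.real (closedBall x r) ≤ 1 - ε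
      rw [div_le_iff₀ hB]
      exact (measureReal_mono (Metric.closedBall_subset_closedBall hsρ)).trans hx.le
    linarith
  have h8 : ε * μ.real {x | ε ≤ 1 - f x} ≤ ε * ε := by
    refine hm.trans (h5.trans (le_of_eq (sq ε)))
  exact (measureReal_mono h6).trans (le_of_mul_le_mul_left h8 hε)

lemma far_good (l k : ℕ) {ε : ℝ} (hε : 0 < ε) {M : ℕ} (hM : 1 ≤ M) :
    μ {y | ENNReal.ofReal (ε * (((M + 1) / 2 : ℕ) : ℝ) ^ 2) * μ (closedBall y ((2 ^ l * M : ℝ)⁻¹)) <
      ∫⁻ x in {x | 2 ^ k * (2 ^ l * M : ℝ)⁻¹ < ‖x - y‖}, ENNReal.ofReal (1 / (2 * ‖x - y‖) ^ 2) ∂μ} ≤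
      ENNReal.ofReal (8 * 4 ^ l / (2 ^ k * ε)) := by
  set ρ : ℝ := (2 ^ l * M : ℝ)⁻¹ with hρd
  have hMR : (0 : ℝ) < M := by exact_mod_cast hM
  have hρ : 0 < ρ := by positivity
  set m : ℕ := (M + 1) / 2 with hm
  have hm2 : (M : ℝ) ≤ 2 * m := by
    have : M ≤ 2 * m := by omega
    exact_mod_cast this
  have hm0 : (0 : ℝ) < m := by linarith
  set Q : UnitAddCircle → ℝ≥0∞ := fun y =>
    ∫⁻ x in {x | 2 ^ k * ρ < ‖x - y‖}, ENNReal.ofReal (1 / (2 * ‖x - y‖) ^ 2) ∂μ with hQ
  have hmean := far_mean μ k hρ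
  rw [measure_univ, mul_one] at hmean
  set c : ℝ≥0∞ := ENNReal.ofReal (ε * (m : ℝ) ^ 2) with hc
  have hc0 : c ≠ 0 := by
    rw [hc, Ne, ENNReal.ofReal_eq_zero, not_le]; positivity
  have hcT : c ≠ ⊤ := ENNReal.ofReal_ne_top
  have hQm : Measurable Q := by
    have hS : MeasurableSet {w : UnitAddCircle × UnitAddCircle | 2 ^ k * ρ < ‖w.2 - w.1‖} := by
      have hc : Continuous fun w : UnitAddCircle × UnitAddCircle => ‖w.2 - w.1‖ := by fun_prop
      exact measurableSet_lt measurable_const hc.measurable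
    have h1 : Measurable (({w : UnitAddCircle × UnitAddCircle | 2 ^ k * ρ < ‖w.2 - w.1‖}.indicator
      (fun w : UnitAddCircle × UnitAddCircle => ENNReal.ofReal (1 / (2 * ‖w.2 - w.1‖) ^ 2)))) := by
      refine Measurable.indicator ?_ hS
      refine ENNReal.measurable_ofReal.comp ?_
      refine measurable_const.div ?_
      have hc : Continuous fun w : UnitAddCircle × UnitAddCircle => (2 * ‖w.2 - w.1‖) ^ 2 := by
        fun_prop
      exact hc.measurable
    have h2 := h1.lintegral_prod_right' (ν := μ)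
    have h3 : Q = fun y => ∫⁻ x, ({w : UnitAddCircle × UnitAddCircle | 2 ^ k * ρ < ‖w.2 - w.1‖}.indicator
      (fun w : UnitAddCircle × UnitAddCircle => ENNReal.ofReal (1 / (2 * ‖w.2 - w.1‖) ^ 2))) (y, x) ∂μ := by
      funext y
      have hSy : MeasurableSet {x : UnitAddCircle | 2 ^ k * ρ < ‖x - y‖} := by
        have hc : Continuous fun x : UnitAddCircle => ‖x - y‖ := by fun_prop
        exact measurableSet_lt measurable_const hc.measurable
      show ∫⁻ x in {x | 2 ^ k * ρ < ‖x - y‖}, ENNReal.ofReal (1 / (2 * ‖x - y‖) ^ 2) ∂μ = _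
      rw [← lintegral_indicator hSy]
      rfl
    rw [h3]; exact h2
  have hfm : AEMeasurable (fun y => Q y * (μ (closedBall y ρ))⁻¹) μ :=
    (hQm.mul (measurable_ball' μ ρ).inv).aemeasurable
  have hmk := meas_ge_le_lintegral_div hfm hc0 hcT
  have hsub : μ {y | c * μ (closedBall y ρ) < Q y} ≤ μ {y | c ≤ Q y * (μ (closedBall y ρ))⁻¹} := by
    refine measure_mono_ae ?_
    filter_upwards [Pool.Agent.H806.Gap.pos_ball μ hρ] with y hy hy2
    have hy2 : c * μ (closedBall y ρ) < Q y := hy2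
    show c ≤ Q y * (μ (closedBall y ρ))⁻¹
    rw [← div_eq_mul_inv, ENNReal.le_div_iff_mul_le (Or.inl hy.ne') (Or.inl (measure_ne_top _ _))]
    exact hy2.le
  refine hsub.trans (hmk.trans ?_)
  refine (ENNReal.div_le_div_right hmean _).trans ?_
  rw [hc, ← ENNReal.ofReal_div_of_pos (by positivity)]
  refine ENNReal.ofReal_le_ofReal ?_
  rw [hρd, div_div, div_le_div_iff₀ (by positivity) (by positivity)]
  have h4 : (4 : ℝ) ^ l = (2 ^ l) ^ 2 := by
    rw [← pow_mul, mul_comm, pow_mul]; norm_num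
  have h5 : (M : ℝ) ^ 2 ≤ 4 * m ^ 2 := by nlinarith
  have h6 : 8 * 4 ^ l * (2 ^ k * (2 ^ l * (M : ℝ))⁻¹ ^ 2 * (ε * (m : ℝ) ^ 2)) =
      8 * 2 ^ k * ε * ((m : ℝ) ^ 2 / M ^ 2) := by
    rw [h4, inv_pow, mul_pow]
    field_simp
  rw [h6]
  have h7 : 1 / 4 ≤ (m : ℝ) ^ 2 / M ^ 2 := by
    rw [div_le_div_iff₀ (by norm_num) (by positivity)]; linarith
  have h8 : 0 < 8 * 2 ^ k * ε := by positivity
  nlinarith

theorem good (hμ : Conc μ) (l : ℕ) {ε : ℝ} (hε : 0 < ε) (hε1 : ε ≤ 1 / 2) :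
    ∀ᶠ M : ℕ in atTop, ∃ E : Set UnitAddCircle, μ.real Eᶜ ≤ 2 * ε ∧ ∀ y ∈ E,
      0 < μ.real (closedBall y ((2 ^ l * M : ℝ)⁻¹)) ∧
      ∫ x in {x | (2 ^ l * M : ℝ)⁻¹ < ‖x - y‖}, ‖D ((M + 1) / 2) (x - y)‖ ^ 2 ∂μ ≤
        3 * ε * (((M + 1) / 2 : ℕ) : ℝ) ^ 2 * μ.real (closedBall y ((2 ^ l * M : ℝ)⁻¹)) := by
  obtain ⟨k, hk⟩ : ∃ k : ℕ, 8 * 4 ^ l / (2 ^ k * ε) ≤ ε := by
    obtain ⟨k, hk⟩ := pow_unbounded_of_one_lt (8 * 4 ^ l / ε ^ 2) (by norm_num : (1 : ℝ) < 2)
    refine ⟨k, ?_⟩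
    rw [div_lt_iff₀ (by positivity)] at hk
    rw [div_le_iff₀ (by positivity)]
    linarith [hk]
  have hsc : Tendsto (fun M : ℕ => (2 ^ l * M : ℝ)⁻¹) atTop (𝓝[>] 0) := by
    refine tendsto_nhdsWithin_iff.2 ⟨?_, ?_⟩
    · refine tendsto_inv_atTop_zero.comp ?_
      exact tendsto_natCast_atTop_atTop.const_mul_atTop (by positivity)
    · filter_upwards [eventually_ge_atTop 1] with M hM
      have hM : (0 : ℝ) < M := by exact_mod_cast hM
      show 0 < (2 ^ l * M : ℝ)⁻¹
      positivity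
  filter_upwards [hsc.eventually (ratio_good hμ k hε), eventually_ge_atTop 1] with M h1 hM
  set ρ : ℝ := (2 ^ l * M : ℝ)⁻¹ with hρd
  have hMR : (0 : ℝ) < M := by exact_mod_cast hM
  have hρ : 0 < ρ := by positivity
  have h2 := far_good (μ := μ) l k hε hM
  rw [← hρd] at h2
  set m : ℕ := (M + 1) / 2 with hm
  set B1 : Set UnitAddCircle := {x | μ.real (closedBall x ρ) < (1 - ε) * μ.real (closedBall x (2 ^ k * ρ))}
    with hB1
  set B2 : Set UnitAddCircle := {y | ENNReal.ofReal (ε * (m : ℝ) ^ 2) * μ (closedBall y ρ) <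
      ∫⁻ x in {x | 2 ^ k * ρ < ‖x - y‖}, ENNReal.ofReal (1 / (2 * ‖x - y‖) ^ 2) ∂μ} with hB2
  set B3 : Set UnitAddCircle := {y | ¬ 0 < μ (closedBall y ρ)} with hB3
  have hB3' : μ B3 = 0 := Pool.Agent.H806.Gap.pos_ball μ hρ
  refine ⟨(B1 ∪ B2 ∪ B3)ᶜ, ?_, ?_⟩
  · rw [compl_compl]
    refine (measureReal_union_le _ _).trans ?_
    have h3 : μ.real B3 = 0 := by rw [measureReal_def, hB3']; rfl
    have h4 : μ.real B2 ≤ ε := by
      rw [measureReal_def]
      refine ENNReal.toReal_le_of_le_ofReal hε.le (h2.trans (ENNReal.ofReal_le_ofReal hk))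
    have h5 := measureReal_union_le (μ := μ) B1 B2
    linarith
  · intro y hy
    rw [compl_union, compl_union] at hy
    obtain ⟨⟨hy1, hy2⟩, hy3⟩ := hy
    have hy1 : (1 - ε) * μ.real (closedBall y (2 ^ k * ρ)) ≤ μ.real (closedBall y ρ) := not_lt.1 hy1
    have hy2 : ∫⁻ x in {x | 2 ^ k * ρ < ‖x - y‖}, ENNReal.ofReal (1 / (2 * ‖x - y‖) ^ 2) ∂μ ≤
        ENNReal.ofReal (ε * (m : ℝ) ^ 2) * μ (closedBall y ρ) := not_lt.1 hy2
    have hy3 : 0 < μ (closedBall y ρ) := not_not.1 hy3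
    have hpos : 0 < μ.real (closedBall y ρ) :=
      ENNReal.toReal_pos hy3.ne' (measure_ne_top _ _)
    refine ⟨hpos, ?_⟩
    set B := μ.real (closedBall y ρ) with hB
    have hcont : Continuous fun x : UnitAddCircle => ‖D m (x - y)‖ ^ 2 := by
      have := continuous_D m
      fun_prop
    have hint : Integrable (fun x : UnitAddCircle => ‖D m (x - y)‖ ^ 2) μ :=
      hcont.integrable_of_hasCompactSupport (HasCompactSupport.of_compactSpace _)
    have hmeas : ∀ a : ℝ, MeasurableSet {x : UnitAddCircle | a < ‖x - y‖} := by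
      intro a
      have hc : Continuous fun x : UnitAddCircle => ‖x - y‖ := by fun_prop
      exact measurableSet_lt measurable_const hc.measurable
    have hle : ρ ≤ 2 ^ k * ρ := by
      have : (1 : ℝ) ≤ 2 ^ k := one_le_pow₀ (by norm_num)
      nlinarith
    -- the middle region and the far region
    have hsplit : {x : UnitAddCircle | ρ < ‖x - y‖} =
        (closedBall y (2 ^ k * ρ) \ closedBall y ρ) ∪ {x | 2 ^ k * ρ < ‖x - y‖} := by
      ext x
      simp only [Set.mem_ofPred_eq, mem_union, Set.mem_sdiff, mem_closedBall, dist_eq_norm, not_le]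
      constructor
      · intro h
        rcases le_or_gt ‖x - y‖ (2 ^ k * ρ) with h' | h'
        · exact Or.inl ⟨h', h⟩
        · exact Or.inr h'
      · rintro (h | h)
        · exact h.2
        · exact hle.trans_lt h
    have hdisj : Disjoint (closedBall y (2 ^ k * ρ) \ closedBall y ρ)
        {x : UnitAddCircle | 2 ^ k * ρ < ‖x - y‖} := by
      rw [Set.disjoint_left]
      intro x hx hx2
      have h3 : ‖x - y‖ ≤ 2 ^ k * ρ := by
        have := hx.1
        rwa [mem_closedBall, dist_eq_norm] at this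
      exact absurd hx2 (not_lt.2 h3)
    rw [hsplit, setIntegral_union hdisj (hmeas _) hint.integrableOn hint.integrableOn]
    have hmid : ∫ x in closedBall y (2 ^ k * ρ) \ closedBall y ρ, ‖D m (x - y)‖ ^ 2 ∂μ ≤
        (m : ℝ) ^ 2 * (μ.real (closedBall y (2 ^ k * ρ)) - B) := by
      have h3 : ∫ x in closedBall y (2 ^ k * ρ) \ closedBall y ρ, ‖D m (x - y)‖ ^ 2 ∂μ ≤
          ∫ _x in closedBall y (2 ^ k * ρ) \ closedBall y ρ, (m : ℝ) ^ 2 ∂μ := by
        refine integral_mono hint.integrableOn (integrable_const _) fun x => ?_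
        have := norm_D_le m (x - y)
        show ‖D m (x - y)‖ ^ 2 ≤ (m : ℝ) ^ 2
        gcongr
      refine h3.trans (le_of_eq ?_)
      rw [setIntegral_const, smul_eq_mul, mul_comm,
        measureReal_sdiff (Metric.closedBall_subset_closedBall hle) Metric.isClosed_closedBall.measurableSet]
    have hfar : ∫ x in {x | 2 ^ k * ρ < ‖x - y‖}, ‖D m (x - y)‖ ^ 2 ∂μ ≤ ε * (m : ℝ) ^ 2 * B := by
      rw [integral_eq_lintegral_of_nonneg_ae (Eventually.of_forall fun x => by positivity)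
        hcont.aestronglyMeasurable]
      have h3 : ∫⁻ x in {x | 2 ^ k * ρ < ‖x - y‖}, ENNReal.ofReal (‖D m (x - y)‖ ^ 2) ∂μ ≤
          ENNReal.ofReal (ε * (m : ℝ) ^ 2) * μ (closedBall y ρ) := by
        refine le_trans (setLIntegral_mono' (hmeas _) fun x hx => ?_) hy2
        refine ENNReal.ofReal_le_ofReal ?_
        have hx : 2 ^ k * ρ < ‖x - y‖ := hx
        have hx0 : 0 < ‖x - y‖ := lt_trans (by positivity) hx
        have h4 := norm_D_mul m (x - y)
        rw [← one_div_pow]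
        gcongr
        rw [le_div_iff₀ (by positivity)]
        exact h4
      refine (ENNReal.toReal_mono (ENNReal.mul_ne_top ENNReal.ofReal_ne_top (measure_ne_top _ _)) h3).trans
        (le_of_eq ?_)
      rw [ENNReal.toReal_mul, ENNReal.toReal_ofReal (by positivity)]
      rfl
    have hB2 : μ.real (closedBall y (2 ^ k * ρ)) - B ≤ 2 * ε * B := by
      have h5 : μ.real (closedBall y (2 ^ k * ρ)) ≤ (1 + 2 * ε) * B := by
        have h6 : (1 - ε) * (1 + 2 * ε) ≥ 1 := by nlinarith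
        have h7 : 0 ≤ μ.real (closedBall y (2 ^ k * ρ)) := measureReal_nonneg
        nlinarith
      linarith
    have hm2 : (0 : ℝ) ≤ (m : ℝ) ^ 2 := by positivity
    nlinarith

end Pool.Agent.H50.RS
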