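import Pool.Agent.H50.RS.Span

/-!
The functionals given by the squares of the Dirichlet kernels centred at good points.
-/

set_option autoImplicit false

open MeasureTheory Filter Topology Set
open scoped ENNReal
open Metric (closedBall mem_closedBall)

namespace Pool.Agent.H50.RS

variable {μ : Measure UnitAddCircle} [IsProbabilityMeasure μ]

/-- `y` is a good point for the modulus `M` -/
def IsGood (μ : Measure UnitAddCircle) (l M : ℕ) (ε : ℝ) (y : UnitAddCircle) : Prop :=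
  0 < μ.real (closedBall y ((2 ^ l * M : ℝ)⁻¹)) ∧
      ∫ x in {x | (2 ^ l * M : ℝ)⁻¹ < ‖x - y‖}, ‖D ((M + 1) / 2) (x - y)‖ ^ 2 ∂μ ≤
        3 * ε * (((M + 1) / 2 : ℕ) : ℝ) ^ 2 * μ.real (closedBall y ((2 ^ l * M : ℝ)⁻¹))

lemma mul_le_of_le_inv {a b : ℝ} (hb : 0 < b) (h : a ≤ b⁻¹) : a * b ≤ 1 := by
  calc a * b ≤ b⁻¹ * b := by gcongr
    _ = 1 := inv_mul_cancel₀ hb.ne'

lemma D_near {l M m : ℕ} (hl : 7 ≤ l) (hM : 1 ≤ M) (hm : m ≤ M) {z : UnitAddCircle}
    (hz : ‖z‖ ≤ (2 ^ l * M : ℝ)⁻¹) : ‖D m z ^ 2 - (m : ℂ) ^ 2‖ ≤ 1 / 10 * (m : ℝ) ^ 2 := by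
  have hMR : (0 : ℝ) < M := by exact_mod_cast hM
  have hmM : (m : ℝ) ≤ M := by exact_mod_cast hm
  have hm0 : (0 : ℝ) ≤ m := Nat.cast_nonneg m
  have h1 : ‖D m z - m‖ ≤ 1 / 20 * m := by
    refine (norm_D_sub m z).trans ?_
    have h2 : (2 : ℝ) ^ 7 ≤ 2 ^ l := pow_le_pow_right₀ (by norm_num) hl
    have h3 : ‖z‖ * (128 * M) ≤ 1 := by
      have h4 : ‖z‖ * (2 ^ l * M) ≤ 1 := mul_le_of_le_inv (by positivity) hz
      have h5 : (128 : ℝ) * M ≤ 2 ^ l * M := by
        have : (128 : ℝ) = 2 ^ 7 := by norm_num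
        rw [this]; gcongr
      exact (mul_le_mul_of_nonneg_left h5 (norm_nonneg _)).trans h4
    have hpi := Real.pi_lt_d2
    have hpi0 := Real.pi_pos
    have h6 : (m : ℝ) * ‖z‖ * 128 ≤ 1 := by
      calc (m : ℝ) * ‖z‖ * 128 ≤ M * ‖z‖ * 128 := by gcongr
        _ = ‖z‖ * (128 * M) := by ring
        _ ≤ 1 := h3
    have h7 : 2 * Real.pi * (m : ℝ) ^ 2 * ‖z‖ = (2 * Real.pi * m) * (m * ‖z‖) := by ring
    rw [h7]
    have h8 : (m : ℝ) * ‖z‖ ≤ 1 / 128 := by linarith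
    have h9 : 0 ≤ 2 * Real.pi * (m : ℝ) := by positivity
    calc (2 * Real.pi * m) * (m * ‖z‖) ≤ (2 * Real.pi * m) * (1 / 128) :=
          mul_le_mul_of_nonneg_left h8 h9
      _ = (2 * Real.pi / 128) * m := by ring
      _ ≤ 1 / 20 * m := mul_le_mul_of_nonneg_right (by linarith) hm0
  have h2 : D m z ^ 2 - (m : ℂ) ^ 2 = (D m z - m) * (D m z + m) := by ring
  rw [h2, norm_mul]
  have h3 : ‖D m z + m‖ ≤ 2 * m := by
    refine (norm_add_le _ _).trans ?_
    have := norm_D_le m z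
    rw [Complex.norm_natCast]
    linarith
  calc ‖D m z - m‖ * ‖D m z + m‖ ≤ (1 / 20 * m) * (2 * m) := by gcongr
    _ = 1 / 10 * (m : ℝ) ^ 2 := by ring

lemma compl_ball (y : UnitAddCircle) (ρ : ℝ) : (closedBall y ρ)ᶜ = {x | ρ < ‖x - y‖} := by
  ext x
  rw [mem_compl_iff, mem_closedBall, dist_eq_norm, not_le]
  rfl

lemma IsGood.total {l M : ℕ} {ε : ℝ} {y : UnitAddCircle} (h : IsGood μ l M ε y) :
    ∫ x, ‖Dsq ((M + 1) / 2) y x‖ ∂μ ≤
      (1 + 3 * ε) * (((M + 1) / 2 : ℕ) : ℝ) ^ 2 * μ.real (closedBall y ((2 ^ l * M : ℝ)⁻¹)) := by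
  set m := (M + 1) / 2 with hm
  set ρ : ℝ := (2 ^ l * M : ℝ)⁻¹ with hρ
  have hint : Integrable (fun x => ‖Dsq m y x‖) μ := integrable_of_contR μ (by fun_prop)
  rw [← integral_add_compl (s := closedBall y ρ) Metric.isClosed_closedBall.measurableSet hint, compl_ball]
  have h1 : ∫ x in closedBall y ρ, ‖Dsq m y x‖ ∂μ ≤ (m : ℝ) ^ 2 * μ.real (closedBall y ρ) := by
    refine (integral_mono hint.integrableOn (integrable_const ((m : ℝ) ^ 2)) fun x => ?_).trans
      (le_of_eq (by rw [setIntegral_const, smul_eq_mul, mul_comm]))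
    show ‖Dsq m y x‖ ≤ _
    rw [Dsq_apply, norm_pow]
    have := norm_D_le m (x - y)
    gcongr
  have h2 : ∫ x in {x | ρ < ‖x - y‖}, ‖Dsq m y x‖ ∂μ ≤
      3 * ε * (m : ℝ) ^ 2 * μ.real (closedBall y ρ) := by
    refine le_trans (le_of_eq ?_) h.2
    refine integral_congr_ae (Eventually.of_forall fun x => ?_)
    show ‖Dsq m y x‖ = _
    rw [Dsq_apply, norm_pow]
  linarith

lemma IsGood.peak {l M : ℕ} {ε : ℝ} (hl : 7 ≤ l) (hM : 1 ≤ M) {y : UnitAddCircle}
    (h : IsGood μ l M ε y) {ψ : C(UnitAddCircle, ℂ)} (hψ : ∀ z, ‖ψ z‖ ≤ 1)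
    (hψ1 : ∀ x, ‖x - y‖ ≤ (2 ^ l * M : ℝ)⁻¹ → ψ (M • x) = 1) :
    (9 / 10 - 3 * ε) * (((M + 1) / 2 : ℕ) : ℝ) ^ 2 * μ.real (closedBall y ((2 ^ l * M : ℝ)⁻¹)) ≤
      ‖lam μ M (Dsq ((M + 1) / 2) y) ψ‖ := by
  set m := (M + 1) / 2 with hm
  set ρ : ℝ := (2 ^ l * M : ℝ)⁻¹ with hρ
  set B := μ.real (closedBall y ρ) with hB
  have hmM : m ≤ M := by omega
  have hint : Integrable (fun x => ψ (M • x) * Dsq m y x) μ := integrable_of_cont μ (by fun_prop)
  rw [lam_apply, ← integral_add_compl (s := closedBall y ρ) Metric.isClosed_closedBall.measurableSet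
    hint, compl_ball]
  have h2 : ‖∫ x in {x | ρ < ‖x - y‖}, ψ (M • x) * Dsq m y x ∂μ‖ ≤ 3 * ε * (m : ℝ) ^ 2 * B := by
    refine (norm_integral_le_integral_norm _).trans (le_trans ?_ h.2)
    refine integral_mono (integrable_of_contR μ (by fun_prop)).integrableOn
      (integrable_of_contR μ (by have := continuous_D m; fun_prop)).integrableOn fun x => ?_
    show ‖ψ (M • x) * Dsq m y x‖ ≤ ‖D m (x - y)‖ ^ 2
    rw [norm_mul, Dsq_apply, norm_pow]
    have := hψ (M • x)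
    have h0 : 0 ≤ ‖D m (x - y)‖ ^ 2 := by positivity
    nlinarith
  have h1 : ‖(∫ x in closedBall y ρ, ψ (M • x) * Dsq m y x ∂μ) - (m : ℂ) ^ 2 * B‖ ≤
      1 / 10 * (m : ℝ) ^ 2 * B := by
    have e : (m : ℂ) ^ 2 * B = ∫ _x in closedBall y ρ, (m : ℂ) ^ 2 ∂μ := by
      rw [setIntegral_const, mul_comm]
      rfl
    rw [e, ← integral_sub hint.integrableOn (integrable_const _)]
    have h3 : ∀ x ∈ closedBall y ρ, ‖ψ (M • x) * Dsq m y x - (m : ℂ) ^ 2‖ ≤ 1 / 10 * (m : ℝ) ^ 2 := by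
      intro x hx
      rw [mem_closedBall, dist_eq_norm] at hx
      rw [hψ1 x hx, one_mul, Dsq_apply]
      exact D_near hl hM hmM hx
    have h4 := norm_setIntegral_le_of_norm_le_const (μ := μ) (s := closedBall y ρ)
      (measure_lt_top _ _) h3
    exact h4
  have h5 : ‖(m : ℂ) ^ 2 * B‖ = (m : ℝ) ^ 2 * B := by
    rw [norm_mul, norm_pow, Complex.norm_natCast, Complex.norm_real, Real.norm_of_nonneg measureReal_nonneg]
  set I1 := ∫ x in closedBall y ρ, ψ (M • x) * Dsq m y x ∂μ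
  set I2 := ∫ x in {x | ρ < ‖x - y‖}, ψ (M • x) * Dsq m y x ∂μ
  have h6 : ‖(m : ℂ) ^ 2 * B‖ ≤ ‖I1 + I2‖ + ‖I2‖ + ‖I1 - (m : ℂ) ^ 2 * B‖ := by
    have : (m : ℂ) ^ 2 * B = (I1 + I2) - I2 - (I1 - (m : ℂ) ^ 2 * B) := by ring
    rw [this]
    refine (norm_sub_le _ _).trans ?_
    have := norm_sub_le (I1 + I2) I2
    have e2 : I1 - (m : ℂ) ^ 2 * B = I1 - (I1 + I2 - I2 - (I1 - (m : ℂ) ^ 2 * B)) := by ring
    rw [← e2]
    linarith
  rw [h5] at h6
  linarith

/-- for all large moduli most points are good -/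
lemma exists_good (hμ : Conc μ) (l : ℕ) {ε : ℝ} (hε : 0 < ε) (hε1 : ε ≤ 1 / 2) :
    ∀ᶠ M : ℕ in atTop, ∃ E : Set UnitAddCircle, μ.real Eᶜ ≤ 2 * ε ∧ ∀ y ∈ E, IsGood μ l M ε y :=
  good hμ l hε hε1

lemma norm_nsmul_le' (M : ℕ) (x : UnitAddCircle) : ‖M • x‖ ≤ M * ‖x‖ := by
  simpa using norm_nsmul_le (n := M) (a := x)

lemma mul_near {l M : ℕ} (hM : 1 ≤ M) {x y : UnitAddCircle} (h : ‖x - y‖ ≤ (2 ^ l * M : ℝ)⁻¹) :
    ‖M • x - M • y‖ ≤ (2 ^ l : ℝ)⁻¹ := by
  have hMR : (0 : ℝ) < M := by exact_mod_cast hM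
  rw [← smul_sub]
  refine (norm_nsmul_le' M _).trans ?_
  calc (M : ℝ) * ‖x - y‖ ≤ M * (2 ^ l * M : ℝ)⁻¹ := by gcongr
    _ = (2 ^ l : ℝ)⁻¹ := by field_simp

/-- coordinates with control of the norm in the span of a set -/
lemma exists_coord {E : Type*} [NormedAddCommGroup E] [NormedSpace ℂ E] {s : Set E}
    (h : (Submodule.span ℂ s).FG) : ∃ (n : ℕ) (b : Fin n → E), (∀ i, b i ∈ s) ∧ ∃ K : ℝ, 0 < K ∧
      ∀ x ∈ Submodule.span ℂ s, ∃ c : Fin n → ℂ, x = ∑ i, c i • b i ∧ ∀ i, ‖c i‖ ≤ K * ‖x‖ := by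
  have hfin : FiniteDimensional ℂ (Submodule.span ℂ s) := Module.Finite.iff_fg.2 h
  obtain ⟨b, hb1, hb2, hb3⟩ := exists_linearIndependent ℂ s
  have hbfin : Finite b := by
    have h1 : FiniteDimensional ℂ (Submodule.span ℂ b) := by rw [hb2]; exact hfin
    have h2 : LinearIndependent ℂ (fun i : b => (⟨i, Submodule.subset_span i.2⟩ : Submodule.span ℂ b)) := by
      refine LinearIndependent.of_comp (Submodule.subtype _) ?_
      exact hb3
    exact h2.finite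
  obtain ⟨n, ⟨e⟩⟩ := Finite.exists_equiv_fin b
  set v : Fin n → E := fun i => (e.symm i : E) with hv
  have hvi : LinearIndependent ℂ v := hb3.comp _ e.symm.injective
  have hvr : range v = b := by
    rw [hv]
    have : (fun i => ((e.symm i : b) : E)) = (Subtype.val : b → E) ∘ e.symm := rfl
    rw [this, range_comp, e.symm.surjective.range_eq, image_univ, Subtype.range_coe]
  set Φ : (Fin n → ℂ) →ₗ[ℂ] E := Fintype.linearCombination ℂ v with hΦ
  have hker : LinearMap.ker Φ = ⊥ := by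
    rw [LinearMap.ker_eq_bot']
    intro g hg
    rw [hΦ, Fintype.linearCombination_apply] at hg
    funext i
    exact (Fintype.linearIndependent_iff.1 hvi) g hg i
  obtain ⟨K, hK0, hK⟩ := LinearMap.exists_antilipschitzWith Φ hker
  refine ⟨n, v, fun i => hb1 (e.symm i).2, K, by exact_mod_cast hK0, fun x hx => ?_⟩
  have hrange : Submodule.span ℂ s = LinearMap.range Φ := by
    rw [← hb2, hΦ, Fintype.range_linearCombination, hvr]
  rw [hrange] at hx
  obtain ⟨c, hc⟩ := hx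
  refine ⟨c, ?_, fun i => ?_⟩
  · rw [← hc, hΦ, Fintype.linearCombination_apply]
  · rw [← hc]
    exact (norm_le_pi_norm c i).trans (hK.le_mul_norm (map_zero Φ) c)

/-- **The kernels along an infinite set of moduli span an infinite-dimensional space.** -/
theorem infinite_span (hμ : Conc μ) (hat : ∀ x, μ {x} = 0) {S : Set ℕ} (hS : S.Infinite) :
    ¬ (Submodule.span ℂ (⋃ M ∈ S, gens μ M)).FG := by
  intro hfin
  obtain ⟨nb, b, hb1, K, hK0, hcoord⟩ := exists_coord (E := C(UnitAddCircle, ℂ) →L[ℂ] ℂ) hfin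
  -- the moduli and frequencies of the basis
  have hgen : ∀ i : Fin nb, ∃ M : ℕ, 1 ≤ M ∧ ∃ r : ℕ, b i = lam μ M (fourier (r : ℤ)) := by
    intro i
    have h1 := hb1 i
    simp only [mem_iUnion] at h1
    obtain ⟨M, -, r, hr, h2⟩ := h1
    exact ⟨M, by omega, r, h2⟩
  choose N hN r hr using hgen
  set d : ℝ := (nb : ℝ) with hd
  set η : ℝ := 1 / (4 * (d * K + 1)) with hη
  have hd0 : 0 ≤ d := Nat.cast_nonneg _
  have hη0 : 0 < η := by positivity
  have hsm : ∀ i : Fin nb, ∃ δ : ℝ, 0 < δ ∧ ∀ y, (μ.map (fun x : UnitAddCircle => N i • x)).real (closedBall y δ) ≤ η := by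
    intro i
    have : IsProbabilityMeasure (μ.map (fun x : UnitAddCircle => N i • x)) :=
      Measure.isProbabilityMeasure_map (continuous_nsmul _).measurable.aemeasurable
    exact uniform_small (Pool.Agent.V11299.FG.atomless_map hat (hN i)) hη0
  choose δ hδ0 hδ using hsm
  obtain ⟨l, hl7, hl⟩ : ∃ l : ℕ, 7 ≤ l ∧ ∀ i, 2 * (2 ^ l : ℝ)⁻¹ ≤ δ i := by
    have h1 : Tendsto (fun l : ℕ => 2 * (2 ^ l : ℝ)⁻¹) atTop (𝓝 0) := by
      have : Tendsto (fun l : ℕ => 2 * ((2 : ℝ)⁻¹) ^ l) atTop (𝓝 (2 * 0)) :=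
        (tendsto_pow_atTop_nhds_zero_of_lt_one (by norm_num) (by norm_num)).const_mul _
      simpa using this
    have h2 : ∀ᶠ l : ℕ in atTop, ∀ i, 2 * (2 ^ l : ℝ)⁻¹ ≤ δ i :=
      eventually_all.2 fun i => h1.eventually_le_const (hδ0 i)
    obtain ⟨l, h3, h4⟩ := (h2.and (eventually_ge_atTop 7)).exists
    exact ⟨l, h4, h3⟩
  obtain ⟨M0, hM0⟩ := eventually_atTop.1 (exists_good hμ l (ε := 1 / 100) (by norm_num) (by norm_num))
  obtain ⟨M, hMS, hMM⟩ := hS.exists_gt (M0 + 1)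
  have hM1 : 1 ≤ M := by omega
  obtain ⟨E, hE1, hE2⟩ := hM0 M (by omega)
  have hEne : E.Nonempty := by
    by_contra hne
    rw [not_nonempty_iff_eq_empty] at hne
    rw [hne, compl_empty, probReal_univ] at hE1
    norm_num at hE1
  obtain ⟨y, hy⟩ := hEne
  have hg := hE2 y hy
  set m := (M + 1) / 2 with hm
  set ρ : ℝ := (2 ^ l * M : ℝ)⁻¹ with hρ
  set B := μ.real (closedBall y ρ) with hB
  have hBpos : 0 < B := hg.1
  have hm0 : 0 < (m : ℝ) := by
    have : 1 ≤ m := by omega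
    exact_mod_cast this
  have hmem : lam μ M (Dsq m y) ∈ Submodule.span ℂ (⋃ M ∈ S, gens μ M) := by
    refine Submodule.span_mono ?_ (lam_Dsq_mem μ (M := M) (m := m) (by omega) y)
    exact subset_biUnion_of_mem (u := fun M => gens μ M) hMS
  obtain ⟨c, hc, hcb⟩ := hcoord _ hmem
  set ψ : C(UnitAddCircle, ℂ) := bump ((2 ^ l : ℝ)⁻¹) (M • y) with hψ
  have hpk := hg.peak hl7 hM1 (ψ := ψ) (norm_bump_le _ _) (fun x hx =>
    bump_one (by positivity) (mul_near hM1 hx))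
  have htot := (norm_lam_le μ M (Dsq m y)).trans hg.total
  have hcn : ∀ i, ‖c i‖ ≤ K * ((1 + 3 * (1 / 100)) * (m : ℝ) ^ 2 * B) := by
    intro i
    refine (hcb i).trans ?_
    gcongr
  have hval : lam μ M (Dsq m y) ψ = ∑ i, c i * (lam μ (N i) (fourier (r i : ℤ)) ψ) := by
    rw [hc, ContinuousLinearMap.sum_apply]
    refine Finset.sum_congr rfl fun i _ => ?_
    rw [ContinuousLinearMap.smul_apply, hr i, smul_eq_mul]
  have hsmall : ∀ i, ‖lam μ (N i) (fourier (r i : ℤ)) ψ‖ ≤ η := by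
    intro i
    rw [lam_apply]
    have h1 : ‖∫ x, ψ (N i • x) * (fourier (r i : ℤ) x : ℂ) ∂μ‖ ≤
        ∫ x, (closedBall (M • y) (δ i)).indicator (fun _ => (1 : ℝ)) (N i • x) ∂μ := by
      refine (norm_integral_le_integral_norm _).trans ?_
      have hmb : MeasurableSet (closedBall (M • y) (δ i)) := Metric.isClosed_closedBall.measurableSet
      refine integral_mono (integrable_of_contR μ (by fun_prop)) ?_ fun x => ?_
      · refine Integrable.mono' (integrable_const (1 : ℝ))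
          ((measurable_const.indicator hmb).comp (continuous_nsmul (N i)).measurable).aestronglyMeasurable
          (Eventually.of_forall fun x => ?_)
        by_cases h : N i • x ∈ closedBall (M • y) (δ i)
        · rw [indicator_of_mem h]; simp
        · rw [indicator_of_notMem h]; simp
      · show ‖ψ (N i • x) * (fourier (r i : ℤ) x : ℂ)‖ ≤ _
        rw [norm_mul, norm_fourier', mul_one]
        by_cases h : N i • x ∈ closedBall (M • y) (δ i)
        · rw [indicator_of_mem h]; exact norm_bump_le _ _ _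
        · rw [indicator_of_notMem h]
          rw [mem_closedBall, dist_eq_norm, not_le] at h
          rw [hψ, bump_zero (by positivity) ((hl i).trans h.le), norm_zero]
    refine h1.trans (le_trans (le_of_eq ?_) (hδ i (M • y)))
    have hmb : MeasurableSet (closedBall (M • y) (δ i)) := Metric.isClosed_closedBall.measurableSet
    have h2 : (fun x : UnitAddCircle => (closedBall (M • y) (δ i)).indicator (fun _ => (1 : ℝ)) (N i • x)) =
        ((fun x : UnitAddCircle => N i • x) ⁻¹' closedBall (M • y) (δ i)).indicator (fun _ => (1 : ℝ)) := by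
      funext x
      rfl
    rw [h2, integral_indicator_const _ ((continuous_nsmul (N i)).measurable hmb), smul_eq_mul, mul_one,
      measureReal_def, measureReal_def, Measure.map_apply (continuous_nsmul (N i)).measurable hmb]
  have hup : ‖lam μ M (Dsq m y) ψ‖ ≤ d * (K * ((1 + 3 * (1 / 100)) * (m : ℝ) ^ 2 * B)) * η := by
    rw [hval]
    refine (norm_sum_le _ _).trans ?_
    have h1 : ∀ i ∈ (Finset.univ : Finset (Fin nb)), ‖c i * (lam μ (N i) (fourier (r i : ℤ)) ψ)‖ ≤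
        (K * ((1 + 3 * (1 / 100)) * (m : ℝ) ^ 2 * B)) * η := by
      intro i _
      rw [norm_mul]
      gcongr
      · exact hcn i
      · exact hsmall i
    refine (Finset.sum_le_sum h1).trans (le_of_eq ?_)
    rw [Finset.sum_const, Finset.card_univ, Fintype.card_fin, nsmul_eq_mul, hd]
    ring
  have hX : 0 < (m : ℝ) ^ 2 * B := by positivity
  have hdK : d * K * η ≤ 1 / 4 := by
    rw [hη, mul_one_div, div_le_div_iff₀ (by positivity) (by norm_num)]
    nlinarith [mul_nonneg hd0 hK0.le]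
  have hfinal := hpk.trans hup
  have e1 : d * (K * ((1 + 3 * (1 / 100)) * (m : ℝ) ^ 2 * B)) * η =
      (103 / 100) * (d * K * η) * ((m : ℝ) ^ 2 * B) := by ring
  rw [e1] at hfinal
  have e2 : (103 / 100) * (d * K * η) * ((m : ℝ) ^ 2 * B) ≤ (103 / 100) * (1 / 4) * ((m : ℝ) ^ 2 * B) := by
    gcongr
  nlinarith

end Pool.Agent.H50.RS
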