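import Pool.Agent.H50.RS.Good

/-!
The functionals `ψ ↦ ∫ ψ (M x) P (x) dμ` and the space spanned by them.
-/

set_option autoImplicit false

open MeasureTheory Filter Topology Set
open scoped ENNReal
open Metric (closedBall mem_closedBall)

namespace Pool.Agent.H50.RS

lemma uniform_small {ν : Measure UnitAddCircle} [IsFiniteMeasure ν] (hν : ∀ x, ν {x} = 0) {η : ℝ}
    (hη : 0 < η) : ∃ δ : ℝ, 0 < δ ∧ ∀ y, ν.real (closedBall y δ) ≤ η := by
  have h1 : ∀ y : UnitAddCircle, ∃ U : Set UnitAddCircle, {y} ⊆ U ∧ IsOpen U ∧ ν U < ENNReal.ofReal η := by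
    intro y
    obtain ⟨U, hU1, hU2, hU3⟩ := Set.exists_isOpen_lt_of_lt {y} (ENNReal.ofReal η)
      (μ := ν) (by rw [hν]; exact ENNReal.ofReal_pos.2 hη)
    exact ⟨U, hU1, hU2, hU3⟩
  choose U hU1 hU2 hU3 using h1
  obtain ⟨δ, hδ, h⟩ := lebesgue_number_lemma_of_metric (s := (univ : Set UnitAddCircle))
    isCompact_univ hU2 (fun y _ => mem_iUnion.2 ⟨y, hU1 y (mem_singleton y)⟩)
  refine ⟨δ / 2, by positivity, fun y => ?_⟩
  obtain ⟨i, hi⟩ := h y (mem_univ y)
  rw [measureReal_def]
  refine ENNReal.toReal_le_of_le_ofReal hη.le ?_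
  refine (measure_mono ?_).trans (hU3 i).le
  exact (Metric.closedBall_subset_ball (by linarith)).trans hi

section lam

variable (μ : Measure UnitAddCircle) [IsFiniteMeasure μ]

lemma integrable_cont (f : C(UnitAddCircle, ℂ)) : Integrable (fun x => f x) μ :=
  f.continuous.integrable_of_hasCompactSupport (HasCompactSupport.of_compactSpace _)

lemma integrable_of_cont {f : UnitAddCircle → ℂ} (hf : Continuous f) : Integrable f μ :=
  hf.integrable_of_hasCompactSupport (HasCompactSupport.of_compactSpace _)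

lemma integrable_of_contR {f : UnitAddCircle → ℝ} (hf : Continuous f) : Integrable f μ :=
  hf.integrable_of_hasCompactSupport (HasCompactSupport.of_compactSpace _)

/-- the functional `ψ ↦ ∫ ψ (M x) P (x) dμ` -/
noncomputable def lam (M : ℕ) (P : C(UnitAddCircle, ℂ)) : C(UnitAddCircle, ℂ) →L[ℂ] ℂ :=
  LinearMap.mkContinuous
    { toFun := fun ψ => ∫ x, ψ (M • x) * P x ∂μ
      map_add' := by
        intro ψ ψ'
        rw [← integral_add]
        · refine integral_congr_ae (Eventually.of_forall fun x => ?_)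
          show (ψ + ψ') (M • x) * P x = _
          rw [ContinuousMap.add_apply, add_mul]
        · exact integrable_of_cont μ (by fun_prop)
        · exact integrable_of_cont μ (by fun_prop)
      map_smul' := by
        intro c ψ
        rw [smul_eq_mul, RingHom.id_apply, ← integral_const_mul]
        refine integral_congr_ae (Eventually.of_forall fun x => ?_)
        show (c • ψ) (M • x) * P x = _
        rw [ContinuousMap.smul_apply, smul_eq_mul, mul_assoc] }
    (∫ x, ‖P x‖ ∂μ) (by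
      intro ψ
      show ‖∫ x, ψ (M • x) * P x ∂μ‖ ≤ _
      refine (norm_integral_le_integral_norm _).trans ?_
      rw [mul_comm, ← integral_const_mul]
      refine integral_mono (integrable_of_contR μ (by fun_prop)) (integrable_of_contR μ (by fun_prop))
        fun x => ?_
      show ‖ψ (M • x) * P x‖ ≤ ‖ψ‖ * ‖P x‖
      rw [norm_mul]
      gcongr
      exact ψ.norm_coe_le_norm _)

lemma lam_apply (M : ℕ) (P ψ : C(UnitAddCircle, ℂ)) : lam μ M P ψ = ∫ x, ψ (M • x) * P x ∂μ := rfl

lemma norm_lam_le (M : ℕ) (P : C(UnitAddCircle, ℂ)) : ‖lam μ M P‖ ≤ ∫ x, ‖P x‖ ∂μ :=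
  LinearMap.mkContinuous_norm_le _ (integral_nonneg fun x => norm_nonneg _) _

lemma lam_add (M : ℕ) (P Q : C(UnitAddCircle, ℂ)) : lam μ M (P + Q) = lam μ M P + lam μ M Q := by
  ext ψ
  rw [ContinuousLinearMap.add_apply, lam_apply, lam_apply, lam_apply, ← integral_add]
  · refine integral_congr_ae (Eventually.of_forall fun x => ?_)
    show ψ (M • x) * (P + Q) x = _
    rw [ContinuousMap.add_apply, mul_add]
  · exact integrable_of_cont μ (by fun_prop)
  · exact integrable_of_cont μ (by fun_prop)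

lemma lam_smul (M : ℕ) (c : ℂ) (P : C(UnitAddCircle, ℂ)) : lam μ M (c • P) = c • lam μ M P := by
  ext ψ
  rw [ContinuousLinearMap.smul_apply, lam_apply, lam_apply, smul_eq_mul, ← integral_const_mul]
  refine integral_congr_ae (Eventually.of_forall fun x => ?_)
  show ψ (M • x) * (c • P) x = _
  rw [ContinuousMap.smul_apply, smul_eq_mul]
  ring

/-- the functional as a linear function of `P` -/
noncomputable def lamL (M : ℕ) : C(UnitAddCircle, ℂ) →ₗ[ℂ] (C(UnitAddCircle, ℂ) →L[ℂ] ℂ) where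
  toFun := lam μ M
  map_add' := lam_add μ M
  map_smul' := lam_smul μ M

lemma lamL_apply (M : ℕ) (P : C(UnitAddCircle, ℂ)) : lamL μ M P = lam μ M P := rfl

/-- the generators of the kernel at the modulus `M` -/
def gens (M : ℕ) : Set (C(UnitAddCircle, ℂ) →L[ℂ] ℂ) :=
  {L | ∃ r : ℕ, r < M ∧ L = lam μ M (fourier (r : ℤ))}

end lam

/-- the square of the Dirichlet kernel centred at `y` -/
noncomputable def Dsq (m : ℕ) (y : UnitAddCircle) : C(UnitAddCircle, ℂ) :=
  ⟨fun x => D m (x - y) ^ 2, by have := continuous_D m; fun_prop⟩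

lemma Dsq_apply (m : ℕ) (y x : UnitAddCircle) : Dsq m y x = D m (x - y) ^ 2 := rfl

lemma fourier_sub' (n : ℤ) (x y : UnitAddCircle) :
    (fourier n (x - y) : ℂ) = fourier n (-y) * fourier n x := by
  rw [fourier_apply, fourier_apply, fourier_apply, smul_sub, sub_eq_add_neg, AddCircle.toCircle_add,
    ← smul_neg, Circle.coe_mul, mul_comm]

lemma Dsq_eq (m : ℕ) (y : UnitAddCircle) : Dsq m y = ∑ r ∈ Finset.range m, ∑ s ∈ Finset.range m,
    (fourier (((r + s : ℕ) : ℤ)) (-y) : ℂ) • (fourier (((r + s : ℕ) : ℤ)) : C(UnitAddCircle, ℂ)) := by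
  ext x
  rw [Dsq_apply, sq]
  unfold D
  rw [Finset.sum_mul_sum]
  simp only [ContinuousMap.coe_sum, Finset.sum_apply]
  refine Finset.sum_congr rfl fun r _ => Finset.sum_congr rfl fun s _ => ?_
  rw [ContinuousMap.smul_apply, smul_eq_mul, ← fourier_sub']
  push_cast
  rw [fourier_add]

lemma lam_Dsq_mem (μ : Measure UnitAddCircle) [IsFiniteMeasure μ] {M m : ℕ} (hm : 2 * m ≤ M + 1)
    (y : UnitAddCircle) : lam μ M (Dsq m y) ∈ Submodule.span ℂ (gens μ M) := by
  rw [← lamL_apply, Dsq_eq, map_sum]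
  refine Submodule.sum_mem _ fun r hr => ?_
  rw [map_sum]
  refine Submodule.sum_mem _ fun s hs => ?_
  rw [map_smul, lamL_apply]
  refine Submodule.smul_mem _ _ (Submodule.subset_span ⟨r + s, ?_, rfl⟩)
  rw [Finset.mem_range] at hr hs
  omega

/-- a bump about `c`: one for `‖z - c‖ ≤ a`, zero for `2 a ≤ ‖z - c‖` -/
noncomputable def bump (a : ℝ) (c : UnitAddCircle) : C(UnitAddCircle, ℂ) :=
  ⟨fun z => ((max 0 (min 1 (2 - ‖z - c‖ / a)) : ℝ) : ℂ), by fun_prop⟩

lemma bump_apply (a : ℝ) (c z : UnitAddCircle) :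
    bump a c z = ((max 0 (min 1 (2 - ‖z - c‖ / a)) : ℝ) : ℂ) := rfl

lemma norm_bump_le (a : ℝ) (c z : UnitAddCircle) : ‖bump a c z‖ ≤ 1 := by
  rw [bump_apply, Complex.norm_real, Real.norm_of_nonneg (le_max_left _ _)]
  exact max_le zero_le_one (min_le_left _ _)

lemma bump_one {a : ℝ} (ha : 0 < a) {c z : UnitAddCircle} (h : ‖z - c‖ ≤ a) : bump a c z = 1 := by
  rw [bump_apply]
  have h1 : ‖z - c‖ / a ≤ 1 := (div_le_one ha).2 h
  rw [min_eq_left (by linarith), max_eq_right zero_le_one]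
  simp

lemma bump_zero {a : ℝ} (ha : 0 < a) {c z : UnitAddCircle} (h : 2 * a ≤ ‖z - c‖) : bump a c z = 0 := by
  rw [bump_apply]
  have h1 : 2 ≤ ‖z - c‖ / a := by rwa [le_div_iff₀ ha]
  rw [min_eq_right (by linarith), max_eq_left (by linarith)]
  simp

end Pool.Agent.H50.RS
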